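import Mathlib

set_option autoImplicit false

namespace Pool.Agent.H.MP_92cab9_nt

open MvPolynomial
open Module (finrank)

abbrev Sg (n : ℕ) : Type := Fin n ⊕ Fin n

abbrev PR (n : ℕ) : Type := MvPolynomial (Sg n) ℚ

variable {n : ℕ}

noncomputable def dl (i : Fin n) : Derivation ℚ (PR n) (PR n) :=
  pderiv (Sum.inl i) + (X (Sum.inr i) : PR n) • pderiv (Sum.inr i)

lemma dl_apply (i : Fin n) (p : PR n) :
    dl i p = pderiv (Sum.inl i) p + X (Sum.inr i) * pderiv (Sum.inr i) p := by
  simp [dl]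

lemma coeff_dl (i : Fin n) (p : PR n) (s : Sg n →₀ ℕ) :
    coeff s (dl i p) = coeff (s + Finsupp.single (Sum.inl i) 1) p * (s (Sum.inl i) + 1)
      + s (Sum.inr i) * coeff s p := by
  classical
  rw [dl_apply, coeff_add, coeff_pderiv, coeff_X_mul']
  congr 1
  by_cases h : Sum.inr i ∈ s.support
  · rw [if_pos h, coeff_pderiv]
    have h1 : 1 ≤ s (Sum.inr i) := Nat.one_le_iff_ne_zero.2 (Finsupp.mem_support_iff.1 h)
    have e : s - Finsupp.single (Sum.inr i) 1 + Finsupp.single (Sum.inr i) 1 = s :=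
      tsub_add_cancel_of_le (Finsupp.single_le_iff.2 h1)
    rw [e, Finsupp.tsub_apply, Finsupp.single_eq_same, Nat.cast_sub h1]
    push_cast
    ring
  · rw [if_neg h, Finsupp.notMem_support_iff.1 h]
    simp

noncomputable abbrev E (n l : ℕ) : Submodule ℚ (PR n) := restrictDegree (Sg n) ℚ l

lemma mem_E {l : ℕ} {p : PR n} : p ∈ E n l ↔ ∀ s, coeff s p ≠ 0 → ∀ t, s t ≤ l := by
  simp only [E, mem_restrictDegree, mem_support_iff]

lemma E_mono {a b : ℕ} (h : a ≤ b) : E n a ≤ E n b := fun _ hp =>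
  mem_E.2 fun s hs t => (mem_E.1 hp s hs t).trans h

lemma dl_mem_E {l : ℕ} {p : PR n} (hp : p ∈ E n l) (i : Fin n) : dl i p ∈ E n l := by
  refine mem_E.2 fun s hs t => ?_
  rw [coeff_dl] at hs
  by_cases h : coeff s p = 0
  · have h2 : coeff (s + Finsupp.single (Sum.inl i) 1) p ≠ 0 := fun h2 => hs (by simp [h, h2])
    exact le_trans (by simp) (mem_E.1 hp _ h2 t)
  · exact mem_E.1 hp s h t

lemma mul_mem_E {a b : ℕ} {p q : PR n} (hp : p ∈ E n a) (hq : q ∈ E n b) :
    p * q ∈ E n (a + b) := by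
  classical
  refine mem_E.2 fun s hs t => ?_
  obtain ⟨u, hu, v, hv, rfl⟩ := Finset.mem_add.1 (support_mul p q (mem_support_iff.2 hs))
  exact add_le_add (mem_E.1 hp u (mem_support_iff.1 hu) t) (mem_E.1 hq v (mem_support_iff.1 hv) t)

variable {K : Type*} [Field K] [Algebra ℚ K]

noncomputable def Q (z : Sg n → K) : ℕ → Submodule ℚ (PR n)
  | 0 => ⊤
  | j + 1 => LinearMap.ker (aeval z : PR n →ₐ[ℚ] K).toLinearMap ⊓
      ⨅ i, (Q z j).comap (dl i).toLinearMap

lemma mem_Q_zero (z : Sg n → K) (p : PR n) : p ∈ Q z 0 := by simp [Q]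

lemma mem_Q_succ {z : Sg n → K} {j : ℕ} {p : PR n} :
    p ∈ Q z (j + 1) ↔ aeval z p = 0 ∧ ∀ i, dl i p ∈ Q z j := by
  simp [Q]

lemma Q_succ_le (z : Sg n → K) (j : ℕ) : Q z (j + 1) ≤ Q z j := by
  induction j with
  | zero => exact fun p _ => mem_Q_zero z p
  | succ j ih =>
    intro p hp
    exact mem_Q_succ.2 ⟨(mem_Q_succ.1 hp).1, fun i => ih ((mem_Q_succ.1 hp).2 i)⟩

lemma Q_anti (z : Sg n → K) : Antitone (Q z) := antitone_nat_of_succ_le (Q_succ_le z)

lemma Q_mul {z : Sg n → K} {j : ℕ} : ∀ (f p : PR n), p ∈ Q z j → f * p ∈ Q z j := by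
  induction j with
  | zero => exact fun f p _ => mem_Q_zero z _
  | succ j ih =>
    intro f p hp
    refine mem_Q_succ.2 ⟨by simp [(mem_Q_succ.1 hp).1], fun i => ?_⟩
    rw [Derivation.leibniz, smul_eq_mul, smul_eq_mul, mul_comm p]
    exact add_mem (ih _ _ ((mem_Q_succ.1 hp).2 i)) (ih _ _ (Q_succ_le z j hp))

lemma Q_cancel {z : Sg n → K} {f : PR n} (hf : aeval z f ≠ 0) {j : ℕ} :
    ∀ g : PR n, g ∈ Q z j → f * g ∈ Q z (j + 1) → g ∈ Q z (j + 1) := by
  induction j with
  | zero =>
    intro g _ h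
    have := (mem_Q_succ.1 h).1
    rw [map_mul] at this
    exact mem_Q_succ.2 ⟨(mul_eq_zero.1 this).resolve_left hf, fun i => mem_Q_zero z _⟩
  | succ j ih =>
    intro g hg h
    refine mem_Q_succ.2 ⟨(mem_Q_succ.1 hg).1, fun i => ih _ ((mem_Q_succ.1 hg).2 i) ?_⟩
    have h1 := (mem_Q_succ.1 h).2 i
    rw [Derivation.leibniz, smul_eq_mul, smul_eq_mul, mul_comm g] at h1
    have h2 := Q_mul (dl i f) g hg
    simpa using sub_mem h1 h2

def xdeg (s : Sg n →₀ ℕ) : ℕ := ∑ i, s (Sum.inl i)

lemma xdeg_add (s : Sg n →₀ ℕ) (i : Fin n) :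
    xdeg (s + Finsupp.single (Sum.inl i) 1) = xdeg s + 1 := by
  simp [xdeg, Finset.sum_add_distrib, Finsupp.single_apply]

lemma stable_zero {z : Sg n → K} (hz : ∀ i, z (Sum.inr i) ≠ 0) (S : Finset (Sg n →₀ ℕ)) :
    (∀ s i, s + Finsupp.single (Sum.inl i) 1 ∈ S → s ∈ S) →
      ∀ p : PR n, (∀ j, p ∈ Q z j) → (∀ s, coeff s p ≠ 0 → s ∈ S) → p = 0 := by
  classical
  induction S using Finset.induction_on_max_value xdeg with
  | empty =>
    intro _ p _ hp
    ext s
    by_contra h
    simpa using hp s h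
  | insert s0 S hs0 hmax ih =>
    intro hS p hQ hp
    have hbig : ∀ s ∈ insert s0 S, xdeg s ≤ xdeg s0 := by
      intro s hs
      rcases Finset.mem_insert.1 hs with rfl | hs
      · exact le_rfl
      · exact hmax s hs
    have hS' : ∀ s i, s + Finsupp.single (Sum.inl i) 1 ∈ S → s ∈ S := by
      intro s i hs
      rcases Finset.mem_insert.1 (hS s i (Finset.mem_insert_of_mem hs)) with rfl | h
      · have := hmax _ hs
        rw [xdeg_add] at this
        omega
      · exact h
    have htop : ∀ i, coeff (s0 + Finsupp.single (Sum.inl i) 1) p = 0 := by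
      intro i
      by_contra h
      have := hbig _ (hp _ h)
      rw [xdeg_add] at this
      omega
    have hT : ∀ i s, coeff (s + Finsupp.single (Sum.inl i) 1) p * (s (Sum.inl i) + 1)
        + ((s (Sum.inr i) : ℚ) - s0 (Sum.inr i)) * coeff s p = 0 := by
      intro i
      have hc : ∀ s, coeff s (dl i p - (s0 (Sum.inr i) : ℚ) • p) =
          coeff (s + Finsupp.single (Sum.inl i) 1) p * (s (Sum.inl i) + 1)
            + ((s (Sum.inr i) : ℚ) - s0 (Sum.inr i)) * coeff s p := by
        intro s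
        rw [coeff_sub, coeff_dl, coeff_smul, smul_eq_mul]
        ring
      have h0 : dl i p - (s0 (Sum.inr i) : ℚ) • p = 0 := by
        refine ih hS' _ (fun j => sub_mem ((mem_Q_succ.1 (hQ (j + 1))).2 i)
          (Submodule.smul_mem _ _ (hQ j))) fun s hs => ?_
        rw [hc] at hs
        have h1 : s ∈ insert s0 S := by
          by_cases h : coeff s p = 0
          · refine hS s i (hp _ fun h2 => hs ?_)
            simp [h, h2]
          · exact hp s h
        rcases Finset.mem_insert.1 h1 with rfl | h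
        · exact absurd (by simp [htop]) hs
        · exact h
      intro s
      rw [← hc, h0, coeff_zero]
    by_cases h0 : coeff s0 p = 0
    · refine ih hS' p hQ fun s hs => ?_
      rcases Finset.mem_insert.1 (hp s hs) with rfl | h
      · exact absurd h0 hs
      · exact h
    · exfalso
      have ha : ∀ i, s0 (Sum.inl i) = 0 := by
        intro i
        by_contra hne
        have h1 : 1 ≤ s0 (Sum.inl i) := Nat.one_le_iff_ne_zero.2 hne
        have e : s0 - Finsupp.single (Sum.inl i) 1 + Finsupp.single (Sum.inl i) 1 = s0 :=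
          tsub_add_cancel_of_le (Finsupp.single_le_iff.2 h1)
        have := hT i (s0 - Finsupp.single (Sum.inl i) 1)
        rw [e] at this
        simp only [Finsupp.tsub_apply, Finsupp.single_apply, reduceCtorEq, if_false, tsub_zero,
          sub_self, zero_mul, add_zero] at this
        exact h0 ((mul_eq_zero.1 this).resolve_right (by positivity))
      have hx0 : xdeg s0 = 0 := by simp [xdeg, ha]
      have hp0 : p = monomial s0 (coeff s0 p) := by
        ext s
        rw [coeff_monomial]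
        split_ifs with h
        · rw [h]
        · by_contra hs
          apply h
          have h1 : xdeg s = 0 := by have := hbig s (hp s hs); omega
          ext t
          rcases t with i | i
          · rw [ha]
            exact ((Finset.sum_eq_zero_iff.1 h1) i (Finset.mem_univ i)).symm
          · have h2 : coeff (s + Finsupp.single (Sum.inl i) 1) p = 0 := by
              by_contra h2
              have := hbig _ (hp _ h2)
              rw [xdeg_add] at this
              omega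
            have := hT i s
            rw [h2, zero_mul, zero_add] at this
            have h3 := (mul_eq_zero.1 this).resolve_right hs
            exact_mod_cast (sub_eq_zero.1 h3).symm
      have h1 := (mem_Q_succ.1 (hQ 1)).1
      rw [hp0, aeval_monomial, Finsupp.prod_fintype _ _ (by simp)] at h1
      rcases mul_eq_zero.1 h1 with h | h
      · exact h0 ((map_eq_zero_iff _ (algebraMap ℚ K).injective).1 h)
      · obtain ⟨t, _, ht⟩ := Finset.prod_eq_zero_iff.1 h
        rcases t with i | i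
        · simp [ha] at ht
        · exact hz i (pow_eq_zero_iff'.1 ht).1

lemma exists_notMem_Q {z : Sg n → K} (hz : ∀ i, z (Sum.inr i) ≠ 0) {p : PR n} (hp : p ≠ 0) :
    ∃ j, p ∉ Q z j := by
  classical
  by_contra h
  push Not at h
  refine hp (stable_zero hz (p.support.biUnion fun s => Finset.Iic s) ?_ p h ?_)
  · intro s i hs
    obtain ⟨u, hu, hsu⟩ := Finset.mem_biUnion.1 hs
    exact Finset.mem_biUnion.2 ⟨u, hu, Finset.mem_Iic.2 (le_trans le_self_add
      (Finset.mem_Iic.1 hsu))⟩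
  · intro s hs
    exact Finset.mem_biUnion.2 ⟨s, mem_support_iff.2 hs, Finset.mem_Iic.2 le_rfl⟩

lemma descend {z : Sg n → K} {j : ℕ} {g : PR n} (h1 : g ∈ Q z (j + 1)) (h2 : g ∉ Q z (j + 2)) :
    ∃ i, dl i g ∈ Q z j ∧ dl i g ∉ Q z (j + 1) := by
  by_contra h
  push Not at h
  exact h2 (mem_Q_succ.2 ⟨(mem_Q_succ.1 h1).1, fun i => h i ((mem_Q_succ.1 h1).2 i)⟩)

lemma exact_order {z : Sg n → K} {g : PR n} {J : ℕ} (h : g ∉ Q z J) :
    ∃ j < J, g ∈ Q z j ∧ g ∉ Q z (j + 1) := by
  induction J with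
  | zero => exact absurd (mem_Q_zero z g) h
  | succ J ih =>
    by_cases h1 : g ∈ Q z J
    · exact ⟨J, Nat.lt_succ_self J, h1, h⟩
    · obtain ⟨j, hj, h2⟩ := ih h1
      exact ⟨j, by omega, h2⟩

lemma all_orders {z : Sg n → K} {l : ℕ} (k : ℕ) : ∀ j : ℕ,
    (∃ g ∈ E n l, g ∈ Q z (j + k) ∧ g ∉ Q z (j + k + 1)) →
      ∃ g ∈ E n l, g ∈ Q z j ∧ g ∉ Q z (j + 1) := by
  induction k with
  | zero => exact fun j h => h
  | succ k ih =>
    rintro j ⟨g, hg, h1, h2⟩
    obtain ⟨i, h3, h4⟩ := descend (j := j + k) h1 h2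
    exact ih j ⟨_, dl_mem_E hg i, h3, h4⟩

noncomputable abbrev V (z : Sg n → K) (l : ℕ) : Submodule ℚ K :=
  (E n l).map (aeval z : PR n →ₐ[ℚ] K).toLinearMap

lemma drop {z : Sg n → K} {l j : ℕ} {g : PR n} (hg : g ∈ E n l) (h1 : g ∈ Q z j)
    (h2 : g ∉ Q z (j + 1)) :
    finrank ℚ (E n (l + l) ⊓ Q z (j + 1) : Submodule ℚ (PR n)) + finrank ℚ (V z l) ≤
      finrank ℚ (E n (l + l) ⊓ Q z j : Submodule ℚ (PR n)) := by
  set U : Submodule ℚ (PR n) := E n (l + l) ⊓ Q z j with hU
  have : FiniteDimensional ℚ U := Submodule.finiteDimensional_of_le inf_le_left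
  let π := (Q z (j + 1)).mkQ.domRestrict U
  let ψ := ((Q z (j + 1)).mkQ ∘ₗ LinearMap.mulRight ℚ g).domRestrict (E n l)
  let e := (aeval z : PR n →ₐ[ℚ] K).toLinearMap.domRestrict (E n l)
  have a1 : finrank ℚ (LinearMap.range π) + finrank ℚ (LinearMap.ker π) = finrank ℚ U :=
    π.finrank_range_add_finrank_ker
  have a2 : finrank ℚ (LinearMap.range ψ) + finrank ℚ (LinearMap.ker ψ) = finrank ℚ (E n l) :=
    ψ.finrank_range_add_finrank_ker
  have a3 : finrank ℚ (LinearMap.range e) + finrank ℚ (LinearMap.ker e) = finrank ℚ (E n l) :=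
    e.finrank_range_add_finrank_ker
  have b1 : LinearMap.range ψ ≤ LinearMap.range π := by
    rintro _ ⟨f, rfl⟩
    exact ⟨⟨f * g, mul_mem_E f.2 hg, Q_mul _ _ h1⟩, rfl⟩
  have b2 : LinearMap.ker ψ ≤ LinearMap.ker e := by
    intro f hf
    by_contra hne
    refine h2 (Q_cancel (f := (f : PR n)) (by simpa [e] using hne) g h1 ?_)
    simpa [ψ] using hf
  have b3 : LinearMap.range e = V z l := LinearMap.range_domRestrict _ _
  have b4 : finrank ℚ (LinearMap.ker π) =
      finrank ℚ (E n (l + l) ⊓ Q z (j + 1) : Submodule ℚ (PR n)) := by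
    rw [← Submodule.finrank_map_subtype_eq U (LinearMap.ker π), LinearMap.ker_domRestrict,
      Submodule.map_comap_subtype, Submodule.ker_mkQ, hU, inf_assoc,
      inf_eq_right.2 (Q_succ_le z j)]
  have c1 : finrank ℚ (LinearMap.range ψ) ≤ finrank ℚ (LinearMap.range π) :=
    Submodule.finrank_mono b1
  have c2 : finrank ℚ (LinearMap.ker ψ) ≤ finrank ℚ (LinearMap.ker e) :=
    Submodule.finrank_mono b2
  rw [b3] at a3
  omega

lemma drop_iter {z : Sg n → K} {l : ℕ} (J : ℕ)
    (h : ∀ j < J, ∃ g ∈ E n l, g ∈ Q z j ∧ g ∉ Q z (j + 1)) :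
    finrank ℚ (E n (l + l) ⊓ Q z J : Submodule ℚ (PR n)) + J * finrank ℚ (V z l) ≤
      finrank ℚ (E n (l + l)) := by
  induction J with
  | zero => simpa using Submodule.finrank_mono (inf_le_left : E n (l + l) ⊓ Q z 0 ≤ _)
  | succ J ih =>
    obtain ⟨g, hg, h1, h2⟩ := h J (Nat.lt_succ_self J)
    have := drop hg h1 h2
    have := ih fun j hj => h j (by omega)
    nlinarith

lemma doubling (z : Sg n → K) (l : ℕ) :
    finrank ℚ (V z (l + l)) ≤ 2 ^ (n + n) * finrank ℚ (V z l) := by
  classical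
  let c : (Sg n → Bool) → K := fun ε => ∏ t, z t ^ (if ε t then l else 0)
  let Φ : ((Sg n → Bool) → V z l) →ₗ[ℚ] K :=
    ∑ ε, (LinearMap.mulLeft ℚ (c ε)) ∘ₗ (V z l).subtype ∘ₗ LinearMap.proj ε
  have h1 : V z (l + l) ≤ LinearMap.range Φ := by
    rintro _ ⟨p, hp, rfl⟩
    rw [p.as_sum, map_sum]
    refine sum_mem fun s hs => ?_
    have hs' := mem_E.1 hp s (mem_support_iff.1 hs)
    let ε : Sg n → Bool := fun t => decide (l ≤ s t)
    let s' : Sg n →₀ ℕ := Finsupp.equivFunOnFinite.symm fun t => s t - (if ε t then l else 0)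
    have hm : (monomial s' (coeff s p) : PR n) ∈ E n l := by
      refine mem_E.2 fun u hu t => ?_
      rw [coeff_monomial] at hu
      have : s' = u := by by_contra h; simp [h] at hu
      subst this
      have := hs' t
      by_cases h : l ≤ s t <;> simp [s', ε, h] <;> omega
    refine ⟨Pi.single ε ⟨_, Submodule.mem_map_of_mem hm⟩, ?_⟩
    simp only [Φ, LinearMap.sum_apply, LinearMap.comp_apply, LinearMap.proj_apply]
    rw [Finset.sum_eq_single ε (fun b _ hb => by simp [hb]) (by simp)]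
    simp only [Pi.single_eq_same, Submodule.subtype_apply, LinearMap.mulLeft_apply,
      AlgHom.toLinearMap_apply, aeval_monomial, c]
    rw [Finsupp.prod_fintype _ _ (by simp), Finsupp.prod_fintype _ _ (by simp), mul_left_comm,
      ← Finset.prod_mul_distrib]
    congr 1
    refine Finset.prod_congr rfl fun t _ => ?_
    rw [← pow_add]
    congr 1
    by_cases h : l ≤ s t <;> simp [s', ε, h]
  refine (Submodule.finrank_mono h1).trans (Φ.finrank_range_le.trans ?_)
  simp [Module.finrank_pi_fintype]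

end Pool.Agent.H.MP_92cab9_nt
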