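import Pool.Agent.H.MP_92cab9_nt.A

set_option autoImplicit false

namespace Pool.Agent.H.MP_92cab9_nt

open MvPolynomial NumberField Height
open Module (finrank)

variable {n : ℕ}

abbrev Ix (n l : ℕ) : Type := Sg n → Fin (l + 1)

noncomputable def mono {l : ℕ} (a : Ix n l) : Sg n →₀ ℕ :=
  Finsupp.equivFunOnFinite.symm fun t => (a t : ℕ)

@[simp] lemma mono_apply {l : ℕ} (a : Ix n l) (t : Sg n) : mono a t = a t := rfl

lemma mono_inj {l : ℕ} : Function.Injective (mono : Ix n l → _) := fun a b h =>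
  funext fun t => Fin.ext (by rw [← mono_apply, h, mono_apply])

noncomputable def pol (l : ℕ) : (Ix n l → ℚ) →ₗ[ℚ] PR n :=
  Fintype.linearCombination ℚ fun a => monomial (mono a) 1

lemma coeff_pol {l : ℕ} (c : Ix n l → ℚ) (s : Sg n →₀ ℕ) :
    coeff s (pol l c) = ∑ a, if mono a = s then c a else 0 := by
  classical
  simp [pol, Fintype.linearCombination_apply, coeff_sum, coeff_monomial]

lemma coeff_pol_mono {l : ℕ} (c : Ix n l → ℚ) (a : Ix n l) : coeff (mono a) (pol l c) = c a := by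
  classical
  simp [coeff_pol, mono_inj.eq_iff]

lemma coeff_pol_ne {l : ℕ} (c : Ix n l → ℚ) {s : Sg n →₀ ℕ} (h : ∀ a : Ix n l, mono a ≠ s) :
    coeff s (pol l c) = 0 := by
  simp [coeff_pol, h]

lemma pol_mem {l : ℕ} (c : Ix n l → ℚ) : pol l c ∈ E n l := by
  refine mem_E.2 fun s hs t => ?_
  by_contra h
  refine hs (coeff_pol_ne c fun a ha => h ?_)
  rw [← ha, mono_apply]
  exact Nat.lt_succ_iff.1 (a t).2

lemma pol_coeff {l : ℕ} {p : PR n} (hp : p ∈ E n l) : pol l (fun a => coeff (mono a) p) = p := by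
  ext s
  by_cases h : ∃ a : Ix n l, mono a = s
  · obtain ⟨a, rfl⟩ := h
    exact coeff_pol_mono _ a
  · rw [coeff_pol_ne _ fun a ha => h ⟨a, ha⟩]
    by_contra hs
    exact h ⟨fun t => ⟨s t, Nat.lt_succ_of_le (mem_E.1 hp s (Ne.symm hs) t)⟩, by ext t; rfl⟩

lemma pol_inj {l : ℕ} : Function.Injective (pol l : (Ix n l → ℚ) → PR n) := fun c c' h =>
  funext fun a => by rw [← coeff_pol_mono c a, h, coeff_pol_mono]

lemma range_pol (l : ℕ) : LinearMap.range (pol l : (Ix n l → ℚ) →ₗ[ℚ] PR n) = E n l :=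
  le_antisymm (by rintro _ ⟨c, rfl⟩; exact pol_mem c) fun _ hp => ⟨_, pol_coeff hp⟩

lemma card_Ix (l : ℕ) : Fintype.card (Ix n l) = (l + 1) ^ (n + n) := by simp

lemma finrank_E (l : ℕ) : finrank ℚ (E n l) = (l + 1) ^ (n + n) := by
  rw [← range_pol, LinearMap.finrank_range_of_inj pol_inj]
  simp

lemma aeval_E {A : Type*} [CommRing A] [Algebra ℚ A] (u : Sg n → A) {l : ℕ} {p : PR n}
    (hp : p ∈ E n l) :
    aeval u p = ∑ a : Ix n l, algebraMap ℚ A (coeff (mono a) p) * ∏ t, u t ^ (a t : ℕ) := by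
  conv_lhs => rw [← pol_coeff hp]
  simp only [pol, Fintype.linearCombination_apply, map_sum, map_smul, aeval_monomial, map_one,
    one_mul]
  exact Finset.sum_congr rfl fun a _ => by
    rw [Finsupp.prod_fintype _ _ (by simp), Algebra.smul_def]; rfl

def Bdd (H : ℝ) (p : PR n) : Prop := ∀ s, ∃ k : ℤ, coeff s p = k ∧ |(k : ℝ)| ≤ H

lemma Bdd.mono {H H' : ℝ} {p : PR n} (h : Bdd H p) (hH : H ≤ H') : Bdd H' p := fun s =>
  (h s).imp fun _ hk => ⟨hk.1, hk.2.trans hH⟩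

lemma Bdd.nonneg {H : ℝ} {p : PR n} (h : Bdd H p) : 0 ≤ H :=
  (h 0).elim fun _ hk => (abs_nonneg _).trans hk.2

lemma Bdd.dl {H : ℝ} {l : ℕ} {p : PR n} (h : Bdd H p) (hp : p ∈ E n l) (i : Fin n) :
    Bdd (2 * l * H) (dl i p) := by
  intro s
  obtain ⟨k, hk, hk'⟩ := h (s + Finsupp.single (Sum.inl i) 1)
  obtain ⟨m, hm, hm'⟩ := h s
  have hH := h.nonneg
  refine ⟨k * (s (Sum.inl i) + 1) + s (Sum.inr i) * m, by rw [coeff_dl, hk, hm]; push_cast; ring,
    ?_⟩
  have h1 : |(k : ℝ) * (s (Sum.inl i) + 1)| ≤ l * H := by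
    by_cases h0 : k = 0
    · simp only [h0, Int.cast_zero, zero_mul, abs_zero]
      positivity
    · have := mem_E.1 hp _ (by rw [hk]; exact_mod_cast h0) (Sum.inl i)
      simp only [Finsupp.add_apply, Finsupp.single_eq_same] at this
      have h2 : (s (Sum.inl i) : ℝ) + 1 ≤ l := by exact_mod_cast this
      rw [abs_mul, abs_of_nonneg (by positivity : (0 : ℝ) ≤ s (Sum.inl i) + 1), mul_comm]
      gcongr
  have h2 : |(s (Sum.inr i) : ℝ) * m| ≤ l * H := by
    by_cases h0 : m = 0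
    · simp only [h0, Int.cast_zero, mul_zero, abs_zero]
      positivity
    · have := mem_E.1 hp _ (by rw [hm]; exact_mod_cast h0) (Sum.inr i)
      have h2 : (s (Sum.inr i) : ℝ) ≤ l := by exact_mod_cast this
      rw [abs_mul, Nat.abs_cast]
      gcongr
  push_cast
  linarith [abs_add_le ((k : ℝ) * (s (Sum.inl i) + 1)) ((s (Sum.inr i) : ℝ) * m)]

lemma prod_pow_le {l : ℕ} (f : Sg n → ℝ) (hf : ∀ t, 0 ≤ f t) (a : Ix n l) :
    ∏ t, f t ^ (a t : ℕ) ≤ ∏ t, max (f t) 1 ^ l :=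
  Finset.prod_le_prod (fun t _ => pow_nonneg (hf t) _) fun t _ =>
    (pow_le_pow_left₀ (hf t) (le_max_left _ _) _).trans
      (pow_le_pow_right₀ (le_max_right _ _) (Nat.lt_succ_iff.1 (a t).2))

lemma norm_aeval_le (u : Sg n → ℂ) {l : ℕ} {H : ℝ} {p : PR n} (hp : p ∈ E n l) (hb : Bdd H p) :
    ‖aeval u p‖ ≤ ((l + 1) ^ (n + n) : ℕ) * H * ∏ t, max ‖u t‖ 1 ^ l := by
  rw [aeval_E u hp, ← card_Ix, mul_assoc, ← nsmul_eq_mul, ← Finset.card_univ]
  refine (norm_sum_le _ _).trans (Finset.sum_le_card_nsmul _ _ _ fun a _ => ?_)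
  obtain ⟨k, hk, hk'⟩ := hb (mono a)
  rw [norm_mul, norm_prod, hk]
  simp only [norm_pow, map_intCast, Complex.norm_intCast]
  exact mul_le_mul hk' (prod_pow_le _ (fun t => norm_nonneg _) a) (by positivity) hb.nonneg

variable {K : Type*} [Field K] [NumberField K]

lemma fin_aeval_le (v : FinitePlace K) (z : Sg n → K) {l : ℕ} {H : ℝ} {p : PR n}
    (hp : p ∈ E n l) (hb : Bdd H p) : v (aeval z p) ≤ ∏ t, max (v (z t)) 1 ^ l := by
  have hv : IsNonarchimedean (v ·) := FinitePlace.add_le v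
  have h1 (m : ℤ) : v m ≤ 1 := IsNonarchimedean.apply_intCast_le_one hv
  rw [aeval_E z hp]
  refine hv.apply_sum_univ_le.trans (ciSup_le fun a => ?_)
  obtain ⟨k, hk, -⟩ := hb (mono a)
  rw [map_mul, map_prod, hk, map_intCast]
  simp only [map_pow]
  exact (mul_le_of_le_one_left (Finset.prod_nonneg fun t _ => by positivity) (h1 k)).trans
    (prod_pow_le _ (fun t => apply_nonneg v _) a)

lemma inf_eq (g : InfinitePlace K → ℝ) :
    ∏ v, g v ^ v.mult = ∏ φ : K →+* ℂ, g (InfinitePlace.mk φ) := by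
  classical
  rw [← Finset.prod_fiberwise Finset.univ InfinitePlace.mk fun φ => g (InfinitePlace.mk φ)]
  refine Finset.prod_congr rfl fun v _ => ?_
  rw [Finset.prod_congr rfl (g := fun _ => g v) fun φ hφ => by rw [(Finset.mem_filter.mp hφ).2],
    Finset.prod_const, InfinitePlace.card_filter_mk_eq]

noncomputable def sz (z : Sg n → K) (l : ℕ) (φ : K →+* ℂ) : ℝ := ∏ t, max ‖φ (z t)‖ 1 ^ l

lemma one_le_sz (z : Sg n → K) (l : ℕ) (φ : K →+* ℂ) : 1 ≤ sz z l φ :=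
  le_trans (by simp) (Finset.prod_le_prod (s := Finset.univ) (f := fun _ => (1 : ℝ))
    (fun _ _ => zero_le_one) fun _ _ => one_le_pow₀ (le_max_right _ _))

lemma emb_aeval (φ : K →+* ℂ) (z : Sg n → K) (p : PR n) :
    φ (aeval z p) = aeval (fun t => φ (z t)) p := by
  have := congrArg (fun f : PR n →ₐ[ℚ] ℂ => f p) (comp_aeval z φ.toRatAlgHom)
  simpa using this

lemma liouville (z : Sg n → K) {l : ℕ} {H : ℝ} {p : PR n} (hp : p ∈ E n l) (hb : Bdd H p)
    (h0 : aeval z p ≠ 0) :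
    1 ≤ (∏ φ : K →+* ℂ, ‖φ (aeval z p)‖ / sz z l φ) * ∏ t, mulHeight₁ (z t) ^ l := by
  classical
  set w := aeval z p with hw
  have hfin : ∀ x : K, (Function.mulSupport fun v : FinitePlace K => max (v x) 1).Finite := by
    intro x
    by_cases hx : x = 0
    · simp [hx]
    · refine (FinitePlace.hasFiniteMulSupport hx).subset fun v hv h => hv ?_
      simp only at h
      simp [h]
  let S : Finset (FinitePlace K) := (FinitePlace.hasFiniteMulSupport h0).toFinset ∪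
    Finset.univ.biUnion fun t => (hfin (z t)).toFinset
  have e1 := prod_abs_eq_one h0
  rw [finprod_eq_prod_of_mulSupport_subset _ (s := S) (fun v hv => by simp [S]; exact Or.inl hv),
    inf_eq fun v => v w] at e1
  have e2 : ∀ t, mulHeight₁ (z t) =
      (∏ φ : K →+* ℂ, max ‖φ (z t)‖ 1) * ∏ v ∈ S, max (v (z t)) 1 := by
    intro t
    rw [NumberField.mulHeight₁_eq, finprod_eq_prod_of_mulSupport_subset _ (s := S)
      (fun v hv => Finset.mem_coe.2 (Finset.mem_union_right _ (Finset.mem_biUnion.2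
        ⟨t, Finset.mem_univ t, (Set.Finite.mem_toFinset _).2 hv⟩))),
      inf_eq fun v => max (v (z t)) 1]
    rfl
  have e3 : ∏ t, mulHeight₁ (z t) ^ l =
      (∏ φ : K →+* ℂ, sz z l φ) * ∏ v ∈ S, ∏ t, max (v (z t)) 1 ^ l := by
    simp only [e2, mul_pow, Finset.prod_mul_distrib, sz, ← Finset.prod_pow]
    rw [Finset.prod_comm, Finset.prod_comm (s := S)]
  have hs : 0 < ∏ φ : K →+* ℂ, sz z l φ :=
    Finset.prod_pos fun φ _ => zero_lt_one.trans_le (one_le_sz z l φ)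
  rw [e3, Finset.prod_div_distrib, ← mul_assoc, div_mul_cancel₀ _ hs.ne']
  exact e1.symm.le.trans (mul_le_mul_of_nonneg_left (Finset.prod_le_prod
    (fun v _ => apply_nonneg v _) fun v _ => fin_aeval_le v z hp hb)
    (Finset.prod_nonneg fun φ _ => apply_nonneg _ _))

open MeasureTheory Metric in
lemma packing {F : Type*} [NormedAddCommGroup F] [NormedSpace ℝ F] [FiniteDimensional ℝ F]
    (s : Finset F) {ρ ε : ℝ} (hε : 0 < ε) (hρ : 0 ≤ ρ) (hs : ∀ c ∈ s, ‖c‖ ≤ ρ)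
    (h : ∀ c ∈ s, ∀ d ∈ s, c ≠ d → ε ≤ ‖c - d‖) :
    (s.card : ℝ) ≤ (1 + 2 * ρ / ε) ^ finrank ℝ F := by
  borelize F
  let μ : Measure F := Measure.addHaar
  have h1 : 0 < ε / 2 := by positivity
  have h2 : 0 < ε / 2 + ρ := by positivity
  have D : Set.Pairwise (s : Set F) (Function.onFun Disjoint fun c => ball (c : F) (ε / 2)) := by
    rintro c hc d hd hcd
    apply ball_disjoint_ball
    rw [dist_eq_norm]
    linarith [h c hc d hd hcd]
  have A : (⋃ c ∈ s, ball (c : F) (ε / 2)) ⊆ ball (0 : F) (ε / 2 + ρ) := by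
    refine Set.iUnion₂_subset fun x hx => ball_subset_ball' ?_
    rw [dist_zero_right]
    linarith [hs x hx]
  have I := measure_mono (μ := μ) A
  rw [measure_biUnion_finset D fun c _ => measurableSet_ball] at I
  simp only [μ.addHaar_ball_of_pos _ h1, μ.addHaar_ball_of_pos _ h2, Finset.sum_const,
    nsmul_eq_mul, ← mul_assoc] at I
  have J := (ENNReal.mul_le_mul_iff_left (measure_ball_pos μ _ zero_lt_one).ne'
    measure_ball_lt_top.ne).1 I
  have L := ENNReal.toReal_le_of_le_ofReal (pow_nonneg h2.le _) J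
  rw [ENNReal.toReal_mul, ENNReal.toReal_natCast, ENNReal.toReal_ofReal (pow_nonneg h1.le _)] at L
  have e : 1 + 2 * ρ / ε = (ε / 2 + ρ) / (ε / 2) := by field_simp
  rw [e, div_pow, le_div_iff₀ (pow_pos h1 _)]
  exact L

lemma coords {ι : Type*} [Fintype ι] (r : ℕ) : ∀ U : Submodule ℚ (ι → ℚ), finrank ℚ U ≤ r →
    ∃ T : Finset ι, T.card ≤ r ∧ ∀ u ∈ U, (∀ a ∈ T, u a = 0) → u = 0 := by
  classical
  induction r with
  | zero =>
    intro U hU
    have : U = ⊥ := Submodule.finrank_eq_zero.1 (Nat.le_zero.1 hU)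
    exact ⟨∅, le_rfl, fun u hu _ => by simpa [this] using hu⟩
  | succ r ih =>
    intro U hU
    by_cases h : ∃ u ∈ U, ∃ a, u a ≠ 0
    · obtain ⟨u, hu, a, ha⟩ := h
      have hlt : U ⊓ LinearMap.ker (LinearMap.proj a : (ι → ℚ) →ₗ[ℚ] ℚ) < U :=
        lt_of_le_of_ne inf_le_left fun e => ha (e ▸ hu : u ∈ U ⊓ _).2
      obtain ⟨T, hT, hT'⟩ := ih _
        (Nat.lt_succ_iff.1 ((Submodule.finrank_lt_finrank_of_lt hlt).trans_le hU))
      exact ⟨insert a T, (Finset.card_insert_le _ _).trans (by omega), fun v hv h0 =>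
        hT' v ⟨hv, h0 a (Finset.mem_insert_self _ _)⟩
          fun b hb => h0 b (Finset.mem_insert_of_mem hb)⟩
    · push Not at h
      exact ⟨∅, by simp, fun u hu _ => funext (h u hu)⟩

lemma values (z : Sg n → K) (l : ℕ) {H Θ : ℝ} (hH : 0 ≤ H) (hΘ : 0 < Θ)
    (hh : ∏ t, mulHeight₁ (z t) ^ l ≤ Θ ^ finrank ℚ K) (s : Finset K)
    (hs : ∀ w ∈ s, ∃ p ∈ E n l, Bdd H p ∧ aeval z p = w)
    (hs' : ∀ w ∈ s, ∀ w' ∈ s, ∃ p ∈ E n l, Bdd H p ∧ aeval z p = w - w') :
    (s.card : ℝ) ≤ (1 + 2 * (((l + 1) ^ (n + n) : ℕ) * H) * Θ) ^ finrank ℚ (V z l) := by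
  classical
  let Ψ : K →ₗ[ℚ] ((K →+* ℂ) → ℂ) :=
    { toFun := fun w φ => φ w / (sz z l φ : ℂ)
      map_add' := fun a b => by funext φ; simp [add_div]
      map_smul' := fun c a => by funext φ; simp [Rat.smul_def, mul_div_assoc] }
  have hΨ : ∀ w φ, ‖Ψ w φ‖ = ‖φ w‖ / sz z l φ := by
    intro w φ
    simp [Ψ, abs_of_nonneg (zero_le_one.trans (one_le_sz z l φ))]
  let b := Module.finBasis ℚ (V z l)
  let W : Submodule ℝ ((K →+* ℂ) → ℂ) := Submodule.span ℝ (Set.range fun i => Ψ (b i))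
  have hW : finrank ℝ W ≤ finrank ℚ (V z l) := by
    exact (finrank_range_le_card (R := ℝ) fun i => Ψ (b i)).trans (by simp)
  have hmem : ∀ w ∈ s, Ψ w ∈ W := by
    intro w hw
    obtain ⟨p, hp, -, rfl⟩ := hs w hw
    have e := congrArg (fun y : V z l => Ψ (y : K))
      (b.sum_repr ⟨_, Submodule.mem_map_of_mem (f := (aeval z : PR n →ₐ[ℚ] K).toLinearMap) hp⟩)
    simp only [Submodule.coe_sum, Submodule.coe_smul, map_sum, map_smul,
      AlgHom.toLinearMap_apply] at e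
    rw [← e]
    refine sum_mem fun i _ => ?_
    rw [← Rat.cast_smul_eq_qsmul ℝ]
    exact W.smul_mem _ (Submodule.subset_span ⟨i, rfl⟩)
  have hsep : ∀ w ∈ s, ∀ w' ∈ s, w ≠ w' → 1 / Θ ≤ ‖Ψ w - Ψ w'‖ := by
    intro w hw w' hw' hne
    obtain ⟨p, hp, hb, e⟩ := hs' w hw w' hw'
    have h1 := liouville z hp hb (by rw [e]; exact sub_ne_zero.2 hne)
    have h2 : ∏ φ : K →+* ℂ, ‖φ (aeval z p)‖ / sz z l φ ≤ ‖Ψ (w - w')‖ ^ finrank ℚ K := by
      rw [← Embeddings.card K ℂ, ← Finset.card_univ, ← Finset.prod_const]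
      refine Finset.prod_le_prod (fun φ _ => div_nonneg (norm_nonneg _)
        (zero_le_one.trans (one_le_sz z l φ))) fun φ _ => ?_
      rw [e, ← hΨ]
      exact norm_le_pi_norm _ φ
    have h3 : 1 ≤ (‖Ψ (w - w')‖ * Θ) ^ finrank ℚ K := by
      rw [mul_pow]
      exact h1.trans (mul_le_mul h2 hh (Finset.prod_nonneg fun t _ =>
        pow_nonneg (mulHeight₁_nonneg _) _) (by positivity))
    rw [← map_sub, div_le_iff₀ hΘ]
    exact (one_le_pow_iff_of_nonneg (by positivity) Module.finrank_pos.ne').1 h3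
  let f : s → W := fun w => ⟨Ψ w, hmem w w.2⟩
  have hf : Function.Injective f := by
    intro w w' h
    by_contra hne
    have := hsep w w.2 w' w'.2 fun e => hne (Subtype.ext e)
    rw [show Ψ w = Ψ w' from congrArg Subtype.val h, sub_self, norm_zero] at this
    exact absurd this (not_le.2 (by positivity))
  have hp := packing (Finset.univ.image f) (ρ := ((l + 1) ^ (n + n) : ℕ) * H) (ε := 1 / Θ)
    (by positivity) (by positivity) (fun c hc => ?_) (fun c hc d hd hcd => ?_)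
  · rw [Finset.card_image_of_injective _ hf, Finset.card_univ, Fintype.card_coe,
      div_div_eq_mul_div, div_one] at hp
    exact hp.trans (pow_le_pow_right₀ (le_add_of_nonneg_right (by positivity)) hW)
  · obtain ⟨w, -, rfl⟩ := Finset.mem_image.1 hc
    obtain ⟨p, hp, hb, e⟩ := hs w w.2
    refine (pi_norm_le_iff_of_nonneg (by positivity)).2 fun φ => ?_
    change ‖Ψ w φ‖ ≤ _
    rw [hΨ, div_le_iff₀ (zero_lt_one.trans_le (one_le_sz z l φ)), ← e, emb_aeval]
    exact norm_aeval_le _ hp hb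
  · obtain ⟨w, -, rfl⟩ := Finset.mem_image.1 hc
    obtain ⟨w', -, rfl⟩ := Finset.mem_image.1 hd
    exact hsep w w.2 w' w'.2 fun e => hcd (by rw [Subtype.ext e])

lemma short (z : Sg n → K) (l : ℕ) {H : ℕ} {Θ : ℝ} (hΘ : 1 ≤ Θ)
    (hh : ∏ t, mulHeight₁ (z t) ^ l ≤ Θ ^ finrank ℚ K)
    (hH : 2 * (((l + 1) ^ (n + n) : ℕ) : ℝ) * Θ ≤ H) (U : Submodule ℚ (PR n))
    (hU : finrank ℚ (E n l ⊓ U : Submodule ℚ (PR n)) + 2 * finrank ℚ (V z l) <
      (l + 1) ^ (n + n)) :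
    ∃ p ∈ E n l, Bdd H p ∧ aeval z p = 0 ∧ p ∉ U := by
  classical
  by_contra hne
  push Not at hne
  let q : (Ix n l → Fin (H + 1)) → Ix n l → ℚ := fun c a => ((c a : ℕ) : ℚ)
  have hb : ∀ c c', Bdd H (pol l (q c - q c')) := by
    intro c c' s
    by_cases h : ∃ a : Ix n l, mono a = s
    · obtain ⟨a, rfl⟩ := h
      refine ⟨(c a : ℕ) - (c' a : ℕ), by simp [coeff_pol_mono, q], ?_⟩
      have h1 : ((c a : ℕ) : ℝ) ≤ H := by exact_mod_cast Nat.lt_succ_iff.1 (c a).2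
      have h2 : ((c' a : ℕ) : ℝ) ≤ H := by exact_mod_cast Nat.lt_succ_iff.1 (c' a).2
      have h3 : (0 : ℝ) ≤ (c a : ℕ) := Nat.cast_nonneg _
      have h4 : (0 : ℝ) ≤ (c' a : ℕ) := Nat.cast_nonneg _
      push_cast
      rw [abs_le]
      constructor <;> linarith
    · exact ⟨0, by simp [coeff_pol_ne _ fun a ha => h ⟨a, ha⟩], by simp⟩
  let val : (Ix n l → Fin (H + 1)) → K := fun c => aeval z (pol l (q c))
  have hv := values z l (Nat.cast_nonneg H) (zero_lt_one.trans_le hΘ) hh (Finset.univ.image val)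
    (fun w hw => by
      obtain ⟨c, -, rfl⟩ := Finset.mem_image.1 hw
      have e : q c - q 0 = q c := by funext a; simp [q]
      exact ⟨_, pol_mem _, e ▸ hb c 0, rfl⟩)
    (fun w hw w' hw' => by
      obtain ⟨c, -, rfl⟩ := Finset.mem_image.1 hw
      obtain ⟨c', -, rfl⟩ := Finset.mem_image.1 hw'
      exact ⟨_, pol_mem _, hb c c', by simp [val]⟩)
  set r := finrank ℚ (E n l ⊓ U : Submodule ℚ (PR n)) with hr
  obtain ⟨T, hT, hT'⟩ := coords r (U.comap (pol l)) (by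
    rw [hr, ← range_pol, ← Submodule.map_comap_eq]
    exact (LinearEquiv.finrank_eq (Submodule.equivMapOfInjective _ pol_inj _)).le)
  have hc := Finset.card_le_mul_card_image (f := val) Finset.univ ((H + 1) ^ r) fun w _ => by
    refine le_trans ?_ (Nat.pow_le_pow_right (Nat.succ_pos H) hT)
    have : (H + 1) ^ T.card = (Finset.univ : Finset (T → Fin (H + 1))).card := by simp
    rw [this]
    refine Finset.card_le_card_of_injOn (fun c a => c a) (fun _ _ => Finset.mem_univ _) ?_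
    intro c hc c' hc' e
    have h1 : val c = val c' := by
      rw [(Finset.mem_filter.1 hc).2, (Finset.mem_filter.1 hc').2]
    have h2 := hT' (q c - q c') (hne _ (pol_mem _) (hb c c') (by simpa [val, sub_eq_zero] using h1))
      fun a ha => by simp [q, show c a = c' a from congrFun e ⟨a, ha⟩]
    funext a
    have := congrFun h2 a
    simp only [q, Pi.sub_apply, Pi.zero_apply, sub_eq_zero, Nat.cast_inj] at this
    exact Fin.ext this
  have hN : (1 : ℝ) ≤ ((l + 1) ^ (n + n) : ℕ) := by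
    exact_mod_cast Nat.one_le_pow _ _ (Nat.succ_pos l)
  have hH1 : (1 : ℝ) ≤ H := by nlinarith
  have h3 : ((Finset.univ.image val).card : ℝ) ≤ ((H + 1 : ℕ) : ℝ) ^ (2 * finrank ℚ (V z l)) := by
    rw [pow_mul]
    refine hv.trans (pow_le_pow_left₀ (by positivity) ?_ _)
    push_cast at hH ⊢
    nlinarith
  have h4 : (Finset.univ.image val).card ≤ (H + 1) ^ (2 * finrank ℚ (V z l)) := by
    exact_mod_cast h3
  have h5 : (H + 1) ^ (l + 1) ^ (n + n) ≤ (H + 1) ^ (r + 2 * finrank ℚ (V z l)) := by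
    rw [pow_add (H + 1) r]
    refine le_trans ?_ (hc.trans (Nat.mul_le_mul_left _ h4))
    simp
  have h6 : 1 < H + 1 := by
    have : 1 ≤ H := by exact_mod_cast hH1
    omega
  exact absurd ((Nat.pow_le_pow_iff_right h6).1 h5) (not_le.2 hU)

lemma descend_bdd {z : Sg n → K} {l : ℕ} (j : ℕ) : ∀ (H : ℝ) (p : PR n), p ∈ E n l → Bdd H p →
    p ∈ Q z (j + 1) → p ∉ Q z (j + 2) →
      ∃ g ∈ E n l, Bdd ((2 * l) ^ j * H) g ∧ g ∈ Q z 1 ∧ g ∉ Q z 2 := by
  induction j with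
  | zero => exact fun H p h1 h2 h3 h4 => ⟨p, h1, by simpa using h2, h3, h4⟩
  | succ j ih =>
    intro H p h1 h2 h3 h4
    obtain ⟨i, h5, h6⟩ := descend h3 h4
    obtain ⟨g, hg, hb, h7⟩ := ih _ _ (dl_mem_E h1 i) (h2.dl h1 i) h5 h6
    exact ⟨g, hg, hb.mono (le_of_eq (by ring)), h7⟩

lemma key (z : Sg n → K) (hz : ∀ i, z (Sum.inr i) ≠ 0) {L : ℕ} (hL : 1 ≤ L)
    (hd : 2 * finrank ℚ K < (L + 1) ^ (n + n)) {H : ℕ} {Θ : ℝ} (hΘ : 1 ≤ Θ)
    (hh : ∏ t, mulHeight₁ (z t) ^ (L + L) ≤ Θ ^ finrank ℚ K)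
    (hH : 2 * (((L + L + 1) ^ (n + n) : ℕ) : ℝ) * Θ ≤ H) :
    ∃ g ∈ E n (L + L), Bdd ((2 * (L + L : ℕ)) ^ (2 * 2 ^ (n + n) + 1) * H) g ∧ aeval z g = 0 ∧
      ∃ i, aeval z (dl i g) ≠ 0 := by
  set J := 2 * 2 ^ (n + n) + 1 with hJ
  have hP : ∃ p ∈ E n (L + L), Bdd H p ∧ aeval z p = 0 ∧ p ∉ Q z J := by
    by_cases h : ∃ g ∈ E n L, g ∈ Q z J ∧ g ≠ 0
    · obtain ⟨g, hg, hgQ, hg0⟩ := h
      obtain ⟨j, hj⟩ := exists_notMem_Q hz hg0
      obtain ⟨j', -, h1, h2⟩ := exact_order hj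
      have hJj : J ≤ j' := by
        by_contra hlt
        exact h2 (Q_anti z (by omega) hgQ)
      have h3 := drop_iter (z := z) (l := L) J fun k hk => all_orders (j' - k) k
        ⟨g, hg, by rwa [show k + (j' - k) = j' by omega], by rwa [show k + (j' - k) = j' by omega]⟩
      have h4 := doubling z L
      have h5 : 0 < finrank ℚ (V z L) := by
        refine Nat.pos_of_ne_zero fun h0 => ?_
        have h6 : aeval z (1 : PR n) ∈ V z L := Submodule.mem_map_of_mem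
          (mem_E.2 fun s hs t => by
            rw [coeff_one] at hs
            have : 0 = s := by by_contra h; simp [h] at hs
            simp [← this])
        rw [Submodule.finrank_eq_zero.1 h0] at h6
        simp at h6
      refine short z (L + L) hΘ hh hH (Q z J) ?_
      rw [finrank_E] at h3
      nlinarith
    · push Not at h
      obtain ⟨p, hp, hb, h0, h1⟩ := short z L (H := H) hΘ (le_trans (Finset.prod_le_prod
        (fun t _ => pow_nonneg (mulHeight₁_nonneg _) _) fun t _ =>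
          pow_le_pow_right₀ (one_le_mulHeight₁ _) (Nat.le_add_right L L)) hh)
        (le_trans (by gcongr; omega) hH) ⊥ (by
          have := Submodule.finrank_le (V z L)
          rw [inf_bot_eq, finrank_bot]
          omega)
      exact ⟨p, E_mono (Nat.le_add_right L L) hp, hb, h0, fun hQ => h1 (h p hp hQ)⟩
  obtain ⟨p, hp, hb, h0, h1⟩ := hP
  obtain ⟨j, hj, h2, h3⟩ := exact_order h1
  obtain ⟨j, rfl⟩ : ∃ k, j = k + 1 := Nat.exists_eq_succ_of_ne_zero (by
    rintro rfl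
    exact h3 (mem_Q_succ.2 ⟨h0, fun i => mem_Q_zero z _⟩))
  obtain ⟨g, hg, hb', h4, h5⟩ := descend_bdd j _ p hp hb h2 h3
  have hl : (1 : ℝ) ≤ 2 * (L + L : ℕ) := by
    have : (1 : ℝ) ≤ (L + L : ℕ) := by exact_mod_cast (by omega : 1 ≤ L + L)
    linarith
  refine ⟨g, hg, hb'.mono (mul_le_mul_of_nonneg_right (pow_le_pow_right₀ hl (by omega))
    (Nat.cast_nonneg H)), (mem_Q_succ.1 h4).1, ?_⟩
  by_contra h6
  push Not at h6
  exact h5 (mem_Q_succ.2 ⟨(mem_Q_succ.1 h4).1, fun i =>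
    mem_Q_succ.2 ⟨h6 i, fun k => mem_Q_zero z _⟩⟩)

lemma lower (z : Sg n → K) {l : ℕ} {H Θ : ℝ} (hH : 1 ≤ H) {p : PR n} (hp : p ∈ E n l)
    (hb : Bdd H p) (h0 : aeval z p ≠ 0) (hh : ∏ t, mulHeight₁ (z t) ^ l ≤ Θ ^ finrank ℚ K)
    (φ : K →+* ℂ) :
    1 ≤ ‖φ (aeval z p)‖ * (((l + 1) ^ (n + n) : ℕ) * H * Θ) ^ finrank ℚ K := by
  classical
  have hN : (1 : ℝ) ≤ ((l + 1) ^ (n + n) : ℕ) := by
    exact_mod_cast Nat.one_le_pow _ _ (Nat.succ_pos l)
  have h1 := liouville z hp hb h0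
  have h2 : ∏ ψ : K →+* ℂ, ‖ψ (aeval z p)‖ / sz z l ψ ≤
      ‖φ (aeval z p)‖ * (((l + 1) ^ (n + n) : ℕ) * H) ^ finrank ℚ K := by
    rw [← Finset.mul_prod_erase _ _ (Finset.mem_univ φ)]
    refine mul_le_mul (div_le_self (norm_nonneg _) (one_le_sz z l φ)) ?_
      (Finset.prod_nonneg fun ψ _ => div_nonneg (norm_nonneg _)
        (zero_le_one.trans (one_le_sz z l ψ))) (norm_nonneg _)
    refine le_trans (Finset.prod_le_prod (g := fun _ => ((l + 1) ^ (n + n) : ℕ) * H)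
      (fun ψ _ => div_nonneg (norm_nonneg _) (zero_le_one.trans (one_le_sz z l ψ)))
      fun ψ _ => ?_) ?_
    · rw [div_le_iff₀ (zero_lt_one.trans_le (one_le_sz z l ψ)), emb_aeval]
      exact norm_aeval_le _ hp hb
    · rw [Finset.prod_const, ← Embeddings.card K ℂ]
      exact pow_le_pow_right₀ (one_le_mul_of_one_le_of_one_le hN hH) (Finset.card_le_univ _)
  rw [mul_pow, ← mul_assoc]
  exact h1.trans (mul_le_mul h2 hh (Finset.prod_nonneg fun t _ =>
    pow_nonneg (mulHeight₁_nonneg _) _) (by positivity))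

end Pool.Agent.H.MP_92cab9_nt
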