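import Pool.Agent.H.MP_92cab9_nt.B

set_option autoImplicit false

namespace Pool.Agent.H.MP_92cab9_nt

open MvPolynomial MeasureTheory

variable {n : ℕ}

lemma prod_sub_prod {ι : Type*} (s : Finset ι) (a b : ι → ℂ) {A : ℝ} (hA : 1 ≤ A)
    (ha : ∀ t, ‖a t‖ ≤ A) (hb : ∀ t, ‖b t‖ ≤ A) :
    ‖∏ t ∈ s, a t - ∏ t ∈ s, b t‖ ≤ (∑ t ∈ s, ‖a t - b t‖) * A ^ s.card := by
  classical
  induction s using Finset.induction with
  | empty => simp
  | insert t s ht ih =>
    rw [Finset.prod_insert ht, Finset.prod_insert ht, Finset.sum_insert ht,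
      Finset.card_insert_of_notMem ht]
    have e : a t * ∏ t ∈ s, a t - b t * ∏ t ∈ s, b t =
        a t * (∏ t ∈ s, a t - ∏ t ∈ s, b t) + (a t - b t) * ∏ t ∈ s, b t := by ring
    have h1 : ‖∏ t ∈ s, b t‖ ≤ A ^ s.card := by
      rw [norm_prod, ← Finset.prod_const]
      exact Finset.prod_le_prod (fun _ _ => norm_nonneg _) fun t _ => hb t
    have h2 : A ^ s.card ≤ A ^ (s.card + 1) := pow_le_pow_right₀ hA (Nat.le_succ _)
    have h3 : ‖a t‖ * ‖∏ t ∈ s, a t - ∏ t ∈ s, b t‖ ≤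
        A * ((∑ t ∈ s, ‖a t - b t‖) * A ^ s.card) :=
      mul_le_mul (ha t) ih (norm_nonneg _) (by linarith)
    have h4 : ‖a t - b t‖ * ‖∏ t ∈ s, b t‖ ≤ ‖a t - b t‖ * A ^ (s.card + 1) :=
      mul_le_mul_of_nonneg_left (h1.trans h2) (norm_nonneg _)
    rw [e]
    refine (norm_add_le _ _).trans ?_
    rw [norm_mul, norm_mul, pow_succ] at *
    nlinarith

lemma lip {u v : Sg n → ℂ} {ρ δ H : ℝ} {l : ℕ} {p : PR n} (hp : p ∈ E n l) (hb : Bdd H p)
    (hρ : 1 ≤ ρ) (hδ : 0 ≤ δ) (hu : ∀ t, ‖u t‖ ≤ ρ) (hv : ∀ t, ‖v t‖ ≤ ρ)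
    (huv : ∀ t, ‖u t - v t‖ ≤ δ) :
    ‖aeval u p - aeval v p‖ ≤
      ((l + 1) ^ (n + n) : ℕ) * H * ((n + n) * l) * ρ ^ (l * (n + n + 1)) * δ := by
  have hH := hb.nonneg
  rw [aeval_E u hp, aeval_E v hp, ← Finset.sum_sub_distrib, ← card_Ix, mul_assoc, mul_assoc,
    mul_assoc, ← nsmul_eq_mul, ← Finset.card_univ]
  refine (norm_sum_le _ _).trans (Finset.sum_le_card_nsmul _ _ _ fun a _ => ?_)
  obtain ⟨k, hk, hk'⟩ := hb (mono a)
  rw [← mul_sub, norm_mul, hk, map_intCast, Complex.norm_intCast]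
  refine mul_le_mul hk' ?_ (norm_nonneg _) hH
  have hal : ∀ t, (a t : ℕ) ≤ l := fun t => Nat.lt_succ_iff.1 (a t).2
  have h1 : ∀ w : ℂ, ‖w‖ ≤ ρ → ∀ t, ‖w ^ (a t : ℕ)‖ ≤ ρ ^ l := fun w hw t => by
    rw [norm_pow]
    exact (pow_le_pow_left₀ (norm_nonneg _) hw _).trans (pow_le_pow_right₀ hρ (hal t))
  have h2 : ∀ t, ‖u t ^ (a t : ℕ) - v t ^ (a t : ℕ)‖ ≤ l * δ * ρ ^ l := by
    intro t
    have := prod_sub_prod (Finset.range (a t)) (fun _ => u t) (fun _ => v t) hρ
      (fun _ => hu t) fun _ => hv t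
    simp only [Finset.prod_const, Finset.card_range, Finset.sum_const, nsmul_eq_mul] at this
    refine this.trans ?_
    have h3 : ((a t : ℕ) : ℝ) ≤ l := by exact_mod_cast hal t
    have h4 := pow_le_pow_right₀ hρ (hal t)
    have h5 := huv t
    gcongr
  refine (prod_sub_prod Finset.univ _ _ (one_le_pow₀ hρ) (fun t => h1 _ (hu t) t)
    fun t => h1 _ (hv t) t).trans ?_
  have h3 : ∑ t, ‖u t ^ (a t : ℕ) - v t ^ (a t : ℕ)‖ ≤ (n + n) * (l * δ * ρ ^ l) := by
    refine (Finset.sum_le_card_nsmul _ _ _ fun t _ => h2 t).trans (le_of_eq ?_)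
    simp
  refine (mul_le_mul_of_nonneg_right h3 (by positivity)).trans (le_of_eq ?_)
  simp only [Finset.card_univ, Fintype.card_sum, Fintype.card_fin]
  ring

noncomputable def pt (x : Fin n → ℝ) : Sg n → ℂ :=
  Sum.elim (fun i => (x i : ℂ)) fun i => Complex.exp (x i)

lemma continuous_aeval (p : PR n) : Continuous fun x : Fin n → ℝ => aeval (pt x) p := by
  induction p using MvPolynomial.induction_on with
  | C a => simpa using continuous_const
  | add p q hp hq =>
    simp only [map_add]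
    exact hp.add hq
  | mul_X p t hp =>
    simp only [map_mul, aeval_X]
    refine hp.mul ?_
    rcases t with j | j <;> simp only [pt, Sum.elim_inl, Sum.elim_inr] <;> fun_prop

lemma hasDerivAt_aeval (x : Fin n → ℝ) (i : Fin n) (p : PR n) (τ : ℝ) :
    HasDerivAt (fun t : ℝ => aeval (pt (x + t • Pi.single i 1)) p)
      (aeval (pt (x + τ • Pi.single i 1)) (dl i p)) τ := by
  have h0 : ∀ j, HasDerivAt (fun t : ℝ => (((x + t • Pi.single i 1 : Fin n → ℝ) j : ℝ) : ℂ))
      (if j = i then 1 else 0) τ := by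
    intro j
    have h1 : HasDerivAt (fun t : ℝ => (x + t • Pi.single i 1 : Fin n → ℝ) j)
        (if j = i then 1 else 0) τ := by
      have := ((hasDerivAt_id τ).mul_const ((Pi.single i 1 : Fin n → ℝ) j)).const_add (x j)
      exact this.congr_deriv (by simp [Pi.single_apply])
    exact h1.ofReal_comp.congr_deriv (by split_ifs <;> simp)
  induction p using MvPolynomial.induction_on with
  | C a => simpa using hasDerivAt_const τ _
  | add p q hp hq => exact (by simpa using hp.fun_add hq)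
  | mul_X p t hp =>
    have ht : HasDerivAt (fun s : ℝ => pt (x + s • Pi.single i 1) t)
        (aeval (pt (x + τ • Pi.single i 1)) (dl i (X t))) τ := by
      rcases t with j | j
      · refine (h0 j).congr_deriv ?_
        by_cases h : j = i <;> simp [dl_apply, pderiv_X, Pi.single_apply, h]
      · refine (h0 j).cexp.congr_deriv ?_
        by_cases h : j = i <;> simp [dl_apply, pderiv_X, h, pt]
    simp only [map_mul, aeval_X]
    refine (hp.fun_mul ht).congr_deriv ?_
    simp only [Derivation.leibniz, smul_eq_mul, map_add, map_mul, aeval_X]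
    ring

lemma exp_lip {a b R : ℝ} (ha : a ≤ R) (hb : b ≤ R) :
    ‖Complex.exp a - Complex.exp b‖ ≤ Real.exp R * |a - b| := by
  have key : ∀ a b : ℝ, a ≤ R → Real.exp a - Real.exp b ≤ Real.exp R * |a - b| := by
    intro a b ha
    have h1 := Real.add_one_le_exp (b - a)
    have h2 : Real.exp b = Real.exp a * Real.exp (b - a) := by rw [← Real.exp_add]; ring_nf
    have h3 := Real.exp_pos a
    have h4 := Real.exp_le_exp.2 ha
    have h5 := le_abs_self (a - b)
    have h6 := abs_nonneg (a - b)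
    nlinarith
  rw [← Complex.ofReal_exp, ← Complex.ofReal_exp, ← Complex.ofReal_sub, Complex.norm_real,
    Real.norm_eq_abs, abs_le]
  have h1 := key a b ha
  have h2 := key b a hb
  rw [abs_sub_comm] at h2
  constructor <;> linarith

lemma norm_pt_le {x : Fin n → ℝ} {R : ℝ} (hx : ∀ j, |x j| ≤ R) (t : Sg n) :
    ‖pt x t‖ ≤ Real.exp R := by
  rcases t with j | j
  · simp only [pt, Sum.elim_inl, Complex.norm_real, Real.norm_eq_abs]
    linarith [hx j, Real.add_one_le_exp R]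
  · simp only [pt, Sum.elim_inr, Complex.norm_exp, Complex.ofReal_re]
    exact Real.exp_le_exp.2 ((le_abs_self _).trans (hx j))

lemma two_point {f f' : ℝ → ℂ} (hf : ∀ t, HasDerivAt f (f' t) t) {τ η lam : ℝ} (hτ : 0 ≤ τ)
    (h0 : ‖f 0‖ ≤ η) (h1 : ‖f τ‖ ≤ η) (h2 : lam ≤ ‖f' 0‖)
    (h3 : ∀ t ∈ Set.Icc 0 τ, ‖f' t - f' 0‖ ≤ lam / 2) : lam * τ ≤ 4 * η := by
  have h4 : ∀ t ∈ Set.Icc 0 τ, HasDerivWithinAt (fun t : ℝ => f t - t • f' 0) (f' t - f' 0)
      (Set.Icc 0 τ) t := fun t _ =>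
    (((hf t).sub ((hasDerivAt_id t).smul_const (f' 0))).congr_deriv (by simp)).hasDerivWithinAt
  have h5 := (convex_Icc 0 τ).norm_image_sub_le_of_norm_hasDerivWithin_le h4 h3
    (Set.left_mem_Icc.2 hτ) (Set.right_mem_Icc.2 hτ)
  simp only [zero_smul, sub_zero, Real.norm_eq_abs, abs_of_nonneg hτ] at h5
  have h6 : ‖τ • f' 0‖ ≤ ‖f τ‖ + ‖f 0‖ + ‖f τ - τ • f' 0 - f 0‖ := by
    have e : τ • f' 0 = f τ - f 0 - (f τ - τ • f' 0 - f 0) := by ring
    calc ‖τ • f' 0‖ = ‖f τ - f 0 - (f τ - τ • f' 0 - f 0)‖ := by rw [← e]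
      _ ≤ _ := (norm_sub_le _ _).trans (by linarith [norm_sub_le (f τ) (f 0)])
  rw [norm_smul, Real.norm_eq_abs, abs_of_nonneg hτ] at h6
  nlinarith

lemma measure_translates {S : Set (Fin n → ℝ)} (hS : MeasurableSet S) {R τ : ℝ} (hR : 0 ≤ R)
    (hτ : 0 ≤ τ) (i : Fin n) {k : ℕ} (hk : k * τ ≤ 1) (hb : ∀ x ∈ S, ∀ j, |x j| ≤ R)
    (hd : ∀ x ∈ S, ∀ m : ℕ, 1 ≤ m → m ≤ k → x + (m * τ) • Pi.single i 1 ∉ S) :
    k * volume S ≤ ENNReal.ofReal ((2 * R + 2) ^ n) := by
  let T : ℕ → Set (Fin n → ℝ) := fun m => (fun y => y + (m * τ) • Pi.single i 1) ⁻¹' S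
  have hT : ∀ a b : ℕ, a < b → b < k → Disjoint (T a) (T b) := by
    intro a b hab hbk
    refine Set.disjoint_left.2 fun y ha hb => hd _ ha (b - a) (by omega) (by omega) ?_
    have e : y + (a * τ) • (Pi.single i 1 : Fin n → ℝ) + (((b - a : ℕ) : ℝ) * τ) • Pi.single i 1 =
        y + (b * τ) • Pi.single i 1 := by
      rw [Nat.cast_sub hab.le, add_assoc, ← add_smul]
      congr 2
      ring
    rw [e]
    exact hb
  have D : Set.Pairwise (Finset.range k : Set ℕ) (Function.onFun Disjoint T) := by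
    intro a ha b hb hab
    rcases lt_or_gt_of_ne hab with h | h
    · exact hT a b h (by simpa using hb)
    · exact (hT b a h (by simpa using ha)).symm
  have A : (⋃ m ∈ Finset.range k, T m) ⊆ Set.Icc (fun _ => -(R + 1)) fun _ => R + 1 := by
    refine Set.iUnion₂_subset fun m hm y hy => ?_
    have h1 : (m : ℝ) * τ ≤ 1 :=
      le_trans (by gcongr; exact (Finset.mem_range.1 hm).le) hk
    have h2 : 0 ≤ (m : ℝ) * τ := by positivity
    have h3 : ∀ j, |y j| ≤ R + 1 := by
      intro j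
      have := abs_le.1 (hb _ hy j)
      simp only [Pi.add_apply, Pi.smul_apply, smul_eq_mul, Pi.single_apply] at this
      rw [abs_le]
      split_ifs at this <;> constructor <;> linarith [this.1, this.2]
    exact ⟨fun j => (abs_le.1 (h3 j)).1, fun j => (abs_le.1 (h3 j)).2⟩
  have I := measure_mono (μ := volume) A
  rw [measure_biUnion_finset D fun m _ => hS.preimage (by fun_prop), Real.volume_Icc_pi] at I
  simp only [T, measure_preimage_add_right, Finset.sum_const, Finset.card_range, nsmul_eq_mul,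
    Finset.prod_const, Finset.card_univ, Fintype.card_fin] at I
  rw [ENNReal.ofReal_pow (by positivity)]
  refine I.trans (le_of_eq ?_)
  congr 2
  ring

def bad (R η lam : ℝ) (g : PR n) (i : Fin n) : Set (Fin n → ℝ) :=
  {x | (∀ j, |x j| ≤ R) ∧ ‖aeval (pt x) g‖ ≤ η ∧ lam ≤ ‖aeval (pt x) (dl i g)‖}

lemma measurableSet_bad (R η lam : ℝ) (g : PR n) (i : Fin n) :
    MeasurableSet (bad R η lam g i) := by
  refine IsClosed.measurableSet ?_
  simp only [bad, Set.ofPred_and, Set.ofPred_forall]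
  exact (isClosed_iInter fun j => isClosed_le (by fun_prop) continuous_const).inter
    ((isClosed_le (continuous_aeval g).norm continuous_const).inter
      (isClosed_le continuous_const (continuous_aeval _).norm))

lemma volume_bad {R W H : ℝ} (hR : 0 ≤ R) (hW : 3 ≤ W) {a b l : ℕ} {g : PR n} (hg : g ∈ E n l)
    (hb : Bdd H g) (i : Fin n)
    (hB : ((l + 1) ^ (n + n) : ℕ) * (2 * l * H) * ((n + n) * l) *
      Real.exp R ^ (l * (n + n + 1)) * Real.exp R ≤ W ^ b) :
    volume (bad R (W ^ b / W ^ (a + 4 * b + 7)) (1 / (2 * W ^ b)) g i) ≤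
      ENNReal.ofReal ((2 * R + 2) ^ n / W ^ (a + 1)) := by
  have hW0 : 0 < W := by linarith
  have hW1 : 1 ≤ W := by linarith
  set c := a + 4 * b + 7 with hc
  set τ : ℝ := 10 * W ^ (2 * b) / W ^ c with hτ
  set k := ⌈W ^ (a + 1)⌉₊ with hk
  have hτ0 : 0 < τ := by positivity
  have hk1 : (k : ℝ) ≤ W ^ (a + 2) := by
    have h1 := Nat.ceil_lt_add_one (pow_nonneg hW0.le (a + 1))
    have h2 : 1 ≤ W ^ (a + 1) := one_le_pow₀ hW1
    rw [pow_succ W (a + 1)]
    nlinarith
  have hk2 : k * τ * (4 * W ^ (2 * b)) ≤ 1 := by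
    have h1 : (40 : ℝ) ≤ W ^ 5 := le_trans (by norm_num) (pow_le_pow_left₀ (by norm_num) hW 5)
    have e : W ^ c = W ^ (a + 2) * W ^ (2 * b) * W ^ (2 * b) * W ^ 5 := by rw [hc]; ring
    have e2 : k * τ * (4 * W ^ (2 * b)) = k * W ^ (2 * b) * W ^ (2 * b) * 40 / W ^ c := by
      rw [hτ]; ring
    rw [e2, div_le_one (by positivity), e]
    gcongr
  have h2b : 1 ≤ W ^ (2 * b) := one_le_pow₀ hW1
  have hm := measure_translates (measurableSet_bad R (W ^ b / W ^ c) (1 / (2 * W ^ b)) g i) hR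
    hτ0.le i (k := k) (by nlinarith [mul_nonneg (Nat.cast_nonneg k) hτ0.le]) (fun x hx => hx.1)
    fun x hx m hm1 hm2 hx' => ?_
  · have hkp : (0 : ℝ) < W ^ (a + 1) := by positivity
    rw [ENNReal.ofReal_div_of_pos hkp]
    refine ENNReal.le_div_iff_mul_le (Or.inl (by simpa using hkp)) (Or.inl ENNReal.ofReal_ne_top)
      |>.2 (le_trans ?_ hm)
    rw [mul_comm]
    gcongr
    rw [← ENNReal.ofReal_natCast]
    exact ENNReal.ofReal_le_ofReal (Nat.le_ceil _)
  · have hm1' : (1 : ℝ) ≤ m := by exact_mod_cast hm1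
    have hm2' : (m : ℝ) ≤ k := by exact_mod_cast hm2
    have h := two_point (hasDerivAt_aeval x i g) (τ := m * τ) (η := W ^ b / W ^ c)
      (lam := 1 / (2 * W ^ b)) (by positivity) (by simpa using hx.2.1) hx'.2.1
      (by simpa using hx.2.2) fun t ht => ?_
    · have e : 1 / (2 * W ^ b) * (m * τ) = m * (5 * (W ^ b / W ^ c)) := by
        rw [hτ, two_mul b, pow_add]
        field_simp
        ring
      have : 0 < W ^ b / W ^ c := by positivity
      rw [e] at h
      nlinarith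
    · have hin : ∀ j, |(x + t • Pi.single i 1 : Fin n → ℝ) j| ≤ R := by
        intro j
        have h1 := abs_le.1 (hx.1 j)
        have h2 := abs_le.1 (hx'.1 j)
        simp only [Pi.add_apply, Pi.smul_apply, smul_eq_mul, Pi.single_apply] at h2 ⊢
        rw [abs_le]
        split_ifs at h2 ⊢ <;> constructor <;> linarith [h1.1, h1.2, h2.1, h2.2, ht.1, ht.2]
      have he : 1 ≤ Real.exp R := Real.one_le_exp hR
      have hd : ∀ j, |(x + t • Pi.single i 1 : Fin n → ℝ) j - x j| ≤ t := by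
        intro j
        simp only [Pi.add_apply, Pi.smul_apply, smul_eq_mul, Pi.single_apply, add_sub_cancel_left]
        split_ifs <;> simp [abs_of_nonneg ht.1, ht.1]
      have h1 := lip (u := pt (x + t • Pi.single i 1)) (v := pt x) (dl_mem_E hg i) (hb.dl hg i) he
        (δ := Real.exp R * t) (mul_nonneg (by positivity) ht.1) (norm_pt_le hin) (norm_pt_le hx.1)
        fun s => by
          rcases s with j | j
          · simp only [pt, Sum.elim_inl, ← Complex.ofReal_sub, Complex.norm_real, Real.norm_eq_abs]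
            nlinarith [hd j, ht.1]
          · exact (exp_lip ((le_abs_self _).trans (hin j)) ((le_abs_self _).trans (hx.1 j))).trans
              (mul_le_mul_of_nonneg_left (hd j) (by positivity))
      rw [zero_smul, add_zero]
      refine h1.trans ?_
      rw [← mul_assoc]
      refine (mul_le_mul_of_nonneg_right hB ht.1).trans ?_
      have h3 : t ≤ k * τ := ht.2.trans (by gcongr)
      have h4 : t * (4 * W ^ (2 * b)) ≤ 1 := le_trans (by gcongr) hk2
      rw [div_div, le_div_iff₀ (by positivity)]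
      rw [two_mul b, pow_add] at h4
      nlinarith

end Pool.Agent.H.MP_92cab9_nt
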