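import Pool.Agent.H.MP_92cab9_nt.C

set_option autoImplicit false

namespace Pool.Agent.H.MP_92cab9_nt

open MvPolynomial MeasureTheory NumberField Height Filter
open Module (finrank)

variable {n : ℕ}

lemma exL (hn : 1 ≤ n) (d : ℕ) : ∃ L, 2 * d < (L + 1) ^ (n + n) :=
  ⟨2 * d, lt_of_lt_of_le (Nat.lt_succ_self _) (Nat.le_self_pow (by omega) _)⟩

noncomputable def LL (hn : 1 ≤ n) (d : ℕ) : ℕ := Nat.find (exL hn d)

lemma LL_spec (hn : 1 ≤ n) (d : ℕ) : 2 * d < (LL hn d + 1) ^ (n + n) := Nat.find_spec (exL hn d)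

lemma LL_pos (hn : 1 ≤ n) {d : ℕ} (hd : 1 ≤ d) : 1 ≤ LL hn d := by
  have := LL_spec hn d
  by_contra h
  rw [show LL hn d = 0 by omega] at this
  simp at this
  omega

lemma LL_le (hn : 1 ≤ n) {d : ℕ} (hd : 1 ≤ d) : LL hn d ^ (n + n) ≤ 2 * d := by
  have h1 := LL_pos hn hd
  have := Nat.find_min (exL hn d) (show LL hn d - 1 < LL hn d by omega)
  rw [show LL hn d - 1 + 1 = LL hn d by omega] at this
  omega

def cA (n : ℕ) : ℕ := 2 * 2 ^ (n + n) + 1 + (2 * (n + n) + 1)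
def ca (n : ℕ) : ℕ := (cA n + 1) * (2 * 3 ^ (n + n))
def cb (n R : ℕ) : ℕ := cA n + 3 * (n + n) + 3 + (R + 1) * (n + n + 1) + R
def cc (n R : ℕ) : ℕ := ca n + 4 * cb n R + 7

noncomputable def polys (n l : ℕ) (T : ℝ) : Finset (PR n) := by
  classical
  exact (Fintype.piFinset fun _ : Ix n l => Finset.Icc (-(⌈T⌉₊ : ℤ)) ⌈T⌉₊).image
    fun c => pol l fun a => (c a : ℚ)

lemma mem_polys {l : ℕ} {T : ℝ} {g : PR n} (hg : g ∈ E n l) (hb : Bdd T g) : g ∈ polys n l T := by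
  classical
  choose k hk using hb
  refine Finset.mem_image.2 ⟨fun a => k (mono a), Fintype.mem_piFinset.2 fun a => ?_, ?_⟩
  · have h1 := (hk (mono a)).2.trans (Nat.le_ceil T)
    have h2 : |k (mono a)| ≤ (⌈T⌉₊ : ℤ) := by exact_mod_cast h1
    exact Finset.mem_Icc.2 (abs_le.1 h2)
  · simp only [← (hk _).1]
    exact pol_coeff hg

lemma of_mem_polys {l : ℕ} {T : ℝ} (hT : 0 ≤ T) {g : PR n} (hg : g ∈ polys n l T) :
    g ∈ E n l ∧ Bdd (T + 1) g := by
  classical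
  obtain ⟨c, hc, rfl⟩ := Finset.mem_image.1 hg
  refine ⟨pol_mem _, fun s => ?_⟩
  by_cases h : ∃ a : Ix n l, mono a = s
  · obtain ⟨a, rfl⟩ := h
    refine ⟨c a, coeff_pol_mono _ a, ?_⟩
    have h1 : |c a| ≤ (⌈T⌉₊ : ℤ) := abs_le.2 (Finset.mem_Icc.1 (Fintype.mem_piFinset.1 hc a))
    have h2 : |(c a : ℝ)| ≤ (⌈T⌉₊ : ℕ) := by exact_mod_cast h1
    exact h2.trans (Nat.ceil_lt_add_one hT).le
  · exact ⟨0, by simp [coeff_pol_ne _ fun a ha => h ⟨a, ha⟩], by simp; linarith⟩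

lemma card_polys {l : ℕ} {T : ℝ} (hT : 0 ≤ T) :
    ((polys n l T).card : ℝ) ≤ (2 * T + 3) ^ (l + 1) ^ (n + n) := by
  classical
  have h1 : (polys n l T).card ≤ (2 * ⌈T⌉₊ + 1) ^ (l + 1) ^ (n + n) := by
    refine Finset.card_image_le.trans (le_of_eq ?_)
    rw [Fintype.card_piFinset, Finset.prod_const, Finset.card_univ, card_Ix, Int.card_Icc]
    congr 1
    omega
  have h2 := Nat.ceil_lt_add_one hT
  calc ((polys n l T).card : ℝ) ≤ ((2 * ⌈T⌉₊ + 1) ^ (l + 1) ^ (n + n) : ℕ) := by exact_mod_cast h1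
    _ ≤ _ := by
      push_cast
      exact pow_le_pow_left₀ (by positivity) (by linarith) _

structure Big (l : ℕ) (e : ℝ) : Prop where
  h1 : (l : ℝ) + 1 ≤ e
  h2 : 2 * (l : ℝ) ≤ e
  h3 : 5 ≤ e
  h4 : Real.exp l ≤ e
  h5 : Real.exp 1 ≤ e

lemma big_of {l : ℕ} {e : ℝ} (hl : 2 ≤ l) (he : Real.exp l ≤ e) : Big l e := by
  have h1 : (2 : ℝ) ≤ l := by exact_mod_cast hl
  have h2 := Real.quadratic_le_exp_of_nonneg (x := l) (by linarith)
  exact ⟨by nlinarith, by nlinarith, by nlinarith, he,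
    (Real.exp_le_exp.2 (by linarith)).trans he⟩

lemma Big.N {l : ℕ} {e : ℝ} (h : Big l e) : (((l + 1) ^ (n + n) : ℕ) : ℝ) ≤ e ^ (n + n) := by
  push_cast
  exact pow_le_pow_left₀ (by positivity) h.h1 _

lemma Big.lip {l : ℕ} {e : ℝ} (h : Big l e) (R : ℕ) :
    ((l + 1) ^ (n + n) : ℕ) * (2 * l * e ^ (cA n + 1)) * ((n + n) * l) *
      Real.exp (R + 1) ^ (l * (n + n + 1)) * Real.exp R ≤ e ^ cb n R := by
  have h3 := h.h3
  have h0 : 0 ≤ e := by linarith
  have a1 := h.N (n := n)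
  have a2 := h.h2
  have a3 : ((n : ℝ) + n) ≤ e ^ (n + n) := by
    have : ((n + n : ℕ) : ℝ) ≤ (2 ^ (n + n) : ℕ) := by exact_mod_cast Nat.lt_two_pow_self.le
    push_cast at this
    exact this.trans (pow_le_pow_left₀ (by norm_num) (by linarith) _)
  have a4 : (l : ℝ) ≤ e := by linarith [h.h1]
  have a5 : Real.exp (R + 1) ^ (l * (n + n + 1)) ≤ e ^ ((R + 1) * (n + n + 1)) := by
    refine le_trans (le_of_eq ?_) (pow_le_pow_left₀ (Real.exp_pos l).le h.h4 _)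
    rw [← Real.exp_nat_mul, ← Real.exp_nat_mul]
    congr 1
    push_cast
    ring
  have a6 : Real.exp R ≤ e ^ R := by
    refine le_trans (le_of_eq ?_) (pow_le_pow_left₀ (Real.exp_pos 1).le h.h5 _)
    rw [← Real.exp_nat_mul, mul_one]
  calc _ ≤ e ^ (n + n) * (e * e ^ (cA n + 1)) * (e ^ (n + n) * e) *
      e ^ ((R + 1) * (n + n + 1)) * e ^ R := by gcongr
    _ = e ^ (cA n + 2 * (n + n) + 3 + (R + 1) * (n + n + 1) + R) := by ring
    _ ≤ _ := pow_le_pow_right₀ (by linarith) (by unfold cb; omega)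

noncomputable def ee (hn : 1 ≤ n) (d M : ℕ) : ℝ := Real.exp ((LL hn d + LL hn d : ℕ) * M / d)

noncomputable def WW (hn : 1 ≤ n) (d M : ℕ) : ℝ := Real.exp ((LL hn d + LL hn d : ℕ) * M)

lemma ee_pow (hn : 1 ≤ n) {d : ℕ} (hd : 1 ≤ d) (M : ℕ) : ee hn d M ^ d = WW hn d M := by
  have : (d : ℝ) ≠ 0 := by positivity
  rw [ee, WW, ← Real.exp_nat_mul]
  congr 1
  field_simp

lemma big_ee (hn : 1 ≤ n) {d M : ℕ} (hd : 1 ≤ d) (hM : d ≤ M) :
    Big (LL hn d + LL hn d) (ee hn d M) := by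
  have := LL_pos hn hd
  refine big_of (by omega) (Real.exp_le_exp.2 ?_)
  have h1 : (d : ℝ) ≤ M := by exact_mod_cast hM
  rw [le_div_iff₀ (by positivity)]
  gcongr

lemma ee_le (hn : 1 ≤ n) {d M : ℕ} (hd : 1 ≤ d) (hM : d ≤ M) : ee hn d M ≤ WW hn d M := by
  rw [← ee_pow hn hd]
  exact le_self_pow₀ (by linarith [(big_ee hn hd hM).h3]) (by omega)

def BB (hn : 1 ≤ n) (R M : ℕ) : Set (Fin n → ℝ) :=
  ⋃ d ∈ Finset.Icc 1 M, ⋃ g ∈ polys n (LL hn d + LL hn d) (ee hn d M ^ cA n), ⋃ i,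
    bad R (WW hn d M ^ cb n R / WW hn d M ^ cc n R) (1 / (2 * WW hn d M ^ cb n R)) g i

lemma volume_BB (hn : 1 ≤ n) (R M : ℕ) : volume (BB hn R M) ≤
    ENNReal.ofReal (n * (2 * R + 2) ^ n * (M ^ 1 * Real.exp (-1 * M))) := by
  have h : ∀ d ∈ Finset.Icc 1 M,
      volume (⋃ g ∈ polys n (LL hn d + LL hn d) (ee hn d M ^ cA n), ⋃ i,
        bad R (WW hn d M ^ cb n R / WW hn d M ^ cc n R) (1 / (2 * WW hn d M ^ cb n R)) g i) ≤
      ENNReal.ofReal (n * (2 * R + 2) ^ n * Real.exp (-1 * M)) := by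
    intro d hd
    obtain ⟨hd, hM⟩ := Finset.mem_Icc.1 hd
    have hB := big_ee hn hd hM
    have hle := ee_le hn hd hM
    have hpw := ee_pow hn hd M
    have hL := LL_pos hn hd
    have hL' := LL_le hn hd
    set l := LL hn d + LL hn d with hl
    set e := ee hn d M
    have h3 := hB.h3
    have h1 : 1 ≤ e ^ cA n := one_le_pow₀ (by linarith)
    have hW : Real.exp M ≤ WW hn d M := Real.exp_le_exp.2 (le_mul_of_one_le_left
      (Nat.cast_nonneg _) (by exact_mod_cast (by omega : 1 ≤ l)))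
    set W := WW hn d M
    have hW0 : 0 < W := by linarith
    have hc : ((polys n l (e ^ cA n)).card : ℝ) ≤ W ^ ca n := by
      refine (card_polys (by linarith)).trans ?_
      have h4 : (l + 1) ^ (n + n) ≤ 3 ^ (n + n) * (2 * d) :=
        le_trans (Nat.pow_le_pow_left (by omega : l + 1 ≤ 3 * LL hn d) _)
          (by rw [mul_pow]; gcongr)
      calc (2 * e ^ cA n + 3) ^ (l + 1) ^ (n + n) ≤ (e ^ (cA n + 1)) ^ (l + 1) ^ (n + n) := by
            gcongr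
            rw [pow_succ]
            nlinarith
        _ ≤ (e ^ (cA n + 1)) ^ (3 ^ (n + n) * (2 * d)) :=
            pow_le_pow_right₀ (one_le_pow₀ (by linarith)) h4
        _ = W ^ ca n := by
            rw [← hpw, ← pow_mul, ← pow_mul, ca]
            congr 1
            ring
    refine (measure_biUnion_finset_le _ _).trans ?_
    refine (Finset.sum_le_card_nsmul _ _ (ENNReal.ofReal (n * ((2 * R + 2) ^ n / W ^ (ca n + 1))))
      fun g hg => ?_).trans ?_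
    · obtain ⟨hg1, hg2⟩ := of_mem_polys (by linarith) hg
      refine (measure_iUnion_fintype_le _ _).trans ?_
      refine (Finset.sum_le_card_nsmul _ _ _ fun i _ => volume_bad (Nat.cast_nonneg R)
        (by linarith) hg1 (hg2.mono (show _ ≤ e ^ (cA n + 1) by rw [pow_succ]; nlinarith)) i
        (le_trans ?_ ((hB.lip R).trans (pow_le_pow_left₀ (by linarith) hle _)))).trans ?_
      · gcongr
        linarith
      · simp [ENNReal.ofReal_mul]
    · rw [nsmul_eq_mul, ← ENNReal.ofReal_natCast, ← ENNReal.ofReal_mul (Nat.cast_nonneg _)]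
      refine ENNReal.ofReal_le_ofReal ?_
      calc _ ≤ W ^ ca n * (n * ((2 * R + 2) ^ n / W ^ (ca n + 1))) := by gcongr
        _ = n * (2 * R + 2) ^ n * W⁻¹ := by field_simp; ring
        _ ≤ _ := by
          rw [neg_mul, one_mul, Real.exp_neg]
          gcongr
  refine (measure_biUnion_finset_le _ _).trans ((Finset.sum_le_card_nsmul _ _ _ h).trans ?_)
  rw [nsmul_eq_mul, ← ENNReal.ofReal_natCast, ← ENNReal.ofReal_mul (Nat.cast_nonneg _)]
  refine ENNReal.ofReal_le_ofReal (le_of_eq ?_)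
  simp only [Nat.card_Icc, add_tsub_cancel_right]
  ring

lemma ae_BB (hn : 1 ≤ n) : ∀ᵐ x : Fin n → ℝ, ∀ R : ℕ, ∀ᶠ M in atTop, x ∉ BB hn R M := by
  refine ae_all_iff.2 fun R => ae_eventually_notMem (ne_top_of_le_ne_top ?_
    (ENNReal.tsum_le_tsum (volume_BB hn R)))
  exact ((Real.summable_pow_mul_exp_neg_nat_mul 1 one_pos).mul_left _).tsum_ofReal_ne_top

lemma core (hn : 1 ≤ n) {K : Type*} [Field K] [NumberField K] (φ : K →+* ℂ) (z : Sg n → K)
    {R M : ℕ} (hM : finrank ℚ K ≤ M) (hh : ∀ t, logHeight₁ (z t) ≤ M) {x : Fin n → ℝ}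
    (hx : ∀ j, |x j| ≤ R)
    (hc : ∀ t, ‖pt x t - φ (z t)‖ ≤ 1 / WW hn (finrank ℚ K) M ^ cc n R) : x ∈ BB hn R M := by
  have hd : 1 ≤ finrank ℚ K := Module.finrank_pos
  have hB := big_ee hn hd hM
  have hle := ee_le hn hd hM
  have hpw := ee_pow hn hd M
  have hL := LL_pos hn hd
  have hL' := LL_spec hn (finrank ℚ K)
  have hWe : WW hn (finrank ℚ K) M = Real.exp M ^ (LL hn (finrank ℚ K) + LL hn (finrank ℚ K)) := by
    rw [WW, ← Real.exp_nat_mul]
  refine Set.mem_iUnion₂.2 ⟨finrank ℚ K, Finset.mem_Icc.2 ⟨hd, hM⟩, ?_⟩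
  set d := finrank ℚ K with hdd
  set L := LL hn d
  set e := ee hn d M
  set W := WW hn d M
  have h3 := hB.h3
  have he1 : 1 ≤ e := by linarith
  have hW1 : 1 ≤ W := by linarith
  have hbc : 4 * W ^ cb n R * W ^ cb n R ≤ W ^ cc n R := by
    have : W ^ cb n R * W ^ cb n R * W ≤ W ^ cc n R := by
      rw [← pow_add, ← pow_succ]
      exact pow_le_pow_right₀ hW1 (by unfold cc; omega)
    have h1 : 0 ≤ W ^ cb n R * W ^ cb n R := by positivity
    nlinarith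
  have hb1 : 1 ≤ W ^ cb n R := one_le_pow₀ hW1
  have hRb : Real.exp R ≤ W ^ cb n R := by
    refine le_trans (le_of_eq ?_) ((pow_le_pow_left₀ (Real.exp_pos 1).le (hB.h5.trans hle) R).trans
      (pow_le_pow_right₀ hW1 (by unfold cb; omega)))
    rw [← Real.exp_nat_mul, mul_one]
  have hδ1 : 1 / W ^ cc n R ≤ 1 := by
    rw [div_le_one (by positivity)]
    nlinarith
  have hz : ∀ i, z (Sum.inr i) ≠ 0 := by
    intro i h0
    have h1 := hc (Sum.inr i)
    simp only [h0, map_zero, sub_zero, pt, Sum.elim_inr, Complex.norm_exp, Complex.ofReal_re] at h1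
    rw [le_div_iff₀ (by positivity)] at h1
    have h2 : 1 ≤ Real.exp (x i) * Real.exp R := by
      rw [← Real.exp_add]
      exact Real.one_le_exp (by linarith [neg_abs_le (x i), hx i])
    have h4 := Real.exp_pos (x i)
    have h5 : Real.exp (x i) * (4 * Real.exp R) ≤ Real.exp (x i) * W ^ cc n R := by
      gcongr
      nlinarith
    linarith
  have hΘ : 1 ≤ e ^ (n + n) := one_le_pow₀ he1
  have hht : ∏ t, mulHeight₁ (z t) ^ (L + L) ≤ (e ^ (n + n)) ^ d := by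
    rw [← pow_mul, mul_comm, pow_mul, hpw, hWe]
    refine le_trans (Finset.prod_le_prod (g := fun _ => Real.exp M ^ (L + L))
      (fun t _ => pow_nonneg (mulHeight₁_nonneg _) _) fun t _ =>
        pow_le_pow_left₀ (mulHeight₁_nonneg _) ?_ _) (by simp)
    exact (Real.log_le_iff_le_exp (mulHeight₁_pos _)).1 (hh t)
  obtain ⟨g, hg, hb, h0, i, hi⟩ := key z hz hL hL' hΘ hht (Nat.le_ceil _)
  have hN := hB.N (n := n)
  have hb' : Bdd (e ^ cA n) g := by
    refine hb.mono ?_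
    have h1 := Nat.ceil_lt_add_one
      (show 0 ≤ 2 * (((L + L + 1) ^ (n + n) : ℕ) : ℝ) * e ^ (n + n) by positivity)
    have h2 : 2 * (((L + L + 1) ^ (n + n) : ℕ) : ℝ) * e ^ (n + n) + 1 ≤ e ^ (2 * (n + n) + 1) := by
      rw [pow_succ, two_mul (n + n), pow_add e (n + n)]
      nlinarith [mul_le_mul_of_nonneg_right hN (zero_le_one.trans hΘ),
        one_le_mul_of_one_le_of_one_le hΘ hΘ]
    rw [cA, pow_add e (2 * 2 ^ (n + n) + 1)]
    exact mul_le_mul (pow_le_pow_left₀ (by positivity) hB.h2 _) (h1.le.trans h2)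
      (Nat.cast_nonneg _) (by positivity)
  have hA1 : 1 ≤ e ^ (cA n + 1) := one_le_pow₀ he1
  have hb'' : Bdd (e ^ (cA n + 1)) g := hb'.mono (pow_le_pow_right₀ he1 (Nat.le_succ _))
  have hl1 : (1 : ℝ) ≤ 2 * (L + L : ℕ) := by
    have : (1 : ℝ) ≤ (L + L : ℕ) := by exact_mod_cast (by omega : 1 ≤ L + L)
    linarith
  have hR1 : 1 ≤ Real.exp R := Real.one_le_exp (Nat.cast_nonneg R)
  have hρ : Real.exp R + 1 ≤ Real.exp (R + 1) := by
    rw [Real.exp_add]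
    nlinarith [Real.add_one_le_exp 1]
  have hlip : ∀ p ∈ E n (L + L), Bdd (2 * (L + L : ℕ) * e ^ (cA n + 1)) p →
      ‖aeval (pt x) p - φ (aeval z p)‖ ≤ W ^ cb n R / W ^ cc n R := by
    intro p hp hpb
    rw [emb_aeval, div_eq_mul_one_div]
    refine (lip hp hpb (ρ := Real.exp (R + 1)) (by linarith) (by positivity)
      (fun t => (norm_pt_le hx t).trans (by linarith)) (fun t => ?_) hc).trans
      (mul_le_mul_of_nonneg_right (le_trans (le_mul_of_one_le_right (by positivity) hR1)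
        ((hB.lip R).trans (pow_le_pow_left₀ (by linarith) hle _))) (by positivity))
    have h1 := norm_sub_norm_le (φ (z t)) (pt x t)
    rw [norm_sub_rev] at h1
    linarith [hc t, norm_pt_le hx t]
  refine Set.mem_iUnion₂.2 ⟨g, mem_polys hg hb', Set.mem_iUnion.2 ⟨i, hx, ?_, ?_⟩⟩
  · simpa [h0] using hlip g hg (hb''.mono (le_mul_of_one_le_left (by positivity) hl1))
  · have h1 := hlip _ (dl_mem_E hg i) (hb''.dl hg i)
    have h2 := lower z (one_le_mul_of_one_le_of_one_le hl1 hA1) (dl_mem_E hg i) (hb''.dl hg i) hi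
      hht φ
    have h4 : ((((L + L + 1) ^ (n + n) : ℕ) : ℝ) * (2 * (L + L : ℕ) * e ^ (cA n + 1)) *
        e ^ (n + n)) ^ d ≤ W ^ cb n R := by
      rw [← hpw, ← pow_mul, mul_comm d, pow_mul]
      refine pow_le_pow_left₀ (by positivity) ?_ _
      have := hB.h2
      calc _ ≤ e ^ (n + n) * (e * e ^ (cA n + 1)) * e ^ (n + n) := by gcongr
        _ = e ^ (cA n + 2 * (n + n) + 2) := by ring
        _ ≤ _ := pow_le_pow_right₀ he1 (by unfold cb; omega)
    have h5 : 1 / W ^ cb n R ≤ ‖φ (aeval z (dl i g))‖ := by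
      rw [div_le_iff₀ (by positivity)]
      exact h2.trans (mul_le_mul_of_nonneg_left h4 (norm_nonneg _))
    have h6 : W ^ cb n R / W ^ cc n R ≤ 1 / (2 * W ^ cb n R) := by
      rw [div_le_div_iff₀ (by positivity) (by positivity)]
      nlinarith
    have h7 : 1 / W ^ cb n R = 1 / (2 * W ^ cb n R) + 1 / (2 * W ^ cb n R) := by
      field_simp
      ring
    have h8 := norm_sub_norm_le (φ (aeval z (dl i g))) (aeval (pt x) (dl i g))
    rw [norm_sub_rev] at h8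
    linarith

theorem main (hn : 1 ≤ n) : ∀ᵐ x : Fin n → ℝ, ∃ c D₀ : ℝ, 0 < c ∧ 0 < D₀ ∧
    ∀ D : ℕ, D₀ ≤ D → ∀ μ : ℝ, D ≤ μ → ∀ (K : Type) [Field K] [NumberField K] (φ : K →+* ℂ)
      (z : Sg n → K), finrank ℚ K ≤ D → (∀ t, logHeight₁ (z t) ≤ μ) →
      ∃ t, Real.exp (-(c * (D : ℝ) ^ (1 / (2 * n) : ℝ) * μ)) ≤ ‖pt x t - φ (z t)‖ := by
  filter_upwards [ae_BB hn] with x hx
  obtain ⟨R, hR⟩ := exists_nat_ge ‖x‖
  obtain ⟨M₀, hM₀⟩ := eventually_atTop.1 (hx R)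
  have hcc : (0 : ℝ) < cc n R := by unfold cc; positivity
  refine ⟨8 * cc n R, M₀ + 1, by positivity, by positivity, fun D hD μ hμ K _ _ φ z hK hh => ?_⟩
  by_contra hne
  push Not at hne
  have hM0 : (0 : ℝ) ≤ M₀ := Nat.cast_nonneg _
  have hd : 1 ≤ finrank ℚ K := Module.finrank_pos
  have hDM : D ≤ ⌈μ⌉₊ := by exact_mod_cast hμ.trans (Nat.le_ceil μ)
  refine hM₀ ⌈μ⌉₊ (by exact_mod_cast (by linarith [Nat.le_ceil μ] : (M₀ : ℝ) ≤ ⌈μ⌉₊))
    (core hn φ z (hK.trans hDM) (fun t => (hh t).trans (Nat.le_ceil μ))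
      (fun j => (norm_le_pi_norm x j).trans hR) fun t => (hne t).le.trans ?_)
  rw [WW, ← Real.exp_nat_mul, one_div (Real.exp _), ← Real.exp_neg]
  refine Real.exp_le_exp.2 (neg_le_neg ?_)
  have h1 : (⌈μ⌉₊ : ℝ) ≤ 2 * μ := by linarith [Nat.ceil_lt_add_one (show 0 ≤ μ by linarith)]
  have h2 : (LL hn (finrank ℚ K) : ℝ) ≤ 2 * (D : ℝ) ^ (1 / (2 * n) : ℝ) := by
    have h3 := LL_le hn hd
    have h4 : LL hn (finrank ℚ K) ^ (n + n) ≤ 2 ^ (n + n) * D :=
      h3.trans (Nat.mul_le_mul (Nat.le_self_pow (by omega) 2) hK)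
    refine le_of_pow_le_pow_left₀ (n := n + n) (by omega) (by positivity) ?_
    have hn0 : (n : ℝ) ≠ 0 := by positivity
    rw [mul_pow, ← Real.rpow_natCast ((D : ℝ) ^ _), ← Real.rpow_mul (Nat.cast_nonneg _),
      show (1 / (2 * n) : ℝ) * (n + n : ℕ) = 1 by push_cast; field_simp; ring, Real.rpow_one]
    exact_mod_cast h4
  push_cast
  calc _ ≤ (cc n R : ℝ) * ((2 * (D : ℝ) ^ (1 / (2 * n) : ℝ) + 2 * (D : ℝ) ^ (1 / (2 * n) : ℝ)) *
      (2 * μ)) := by gcongr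
    _ = _ := by ring

end Pool.Agent.H.MP_92cab9_nt
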