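import Pool.Agent.H.MP_92cab9_nt.D

set_option autoImplicit false

namespace Pool.Agent.H.MP_92cab9_nt

open NumberField Height Polynomial

lemma fib {K L : Type*} [Field K] [NumberField K] [Field L] [NumberField L] [Algebra K L]
    (g : (K →+* ℂ) → ℝ) :
    ∏ ψ : L →+* ℂ, g (ψ.comp (algebraMap K L)) = (∏ φ, g φ) ^ Module.finrank K L := by
  classical
  rw [← Finset.prod_fiberwise Finset.univ (fun ψ : L →+* ℂ => ψ.comp (algebraMap K L)),
    ← Finset.prod_pow]
  refine Finset.prod_congr rfl fun φ _ => ?_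
  rw [Finset.prod_congr rfl (g := fun _ => g φ) fun ψ hψ => by rw [(Finset.mem_filter.mp hψ).2],
    Finset.prod_const]
  congr 1
  let _ : Algebra K ℂ := φ.toAlgebra
  rw [← AlgHom.card K L ℂ, ← Fintype.card_subtype]
  exact Fintype.card_congr ⟨fun ψ => ⟨ψ.1, fun r => DFunLike.congr_fun ψ.2 r⟩,
    fun ψ => ⟨ψ.toRingHom, RingHom.ext fun r => ψ.commutes r⟩, fun _ => rfl, fun _ => rfl⟩

lemma ext_int {K L ι : Type*} [Field K] [NumberField K] [Field L] [NumberField L] [Algebra K L]
    [Finite ι] (x : ι → 𝓞 K) (hx : x ≠ 0) :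
    mulHeight (fun i => algebraMap K L (x i)) =
      mulHeight (fun i => (x i : K)) ^ Module.finrank K L := by
  obtain ⟨i, hi⟩ := Function.ne_iff.1 hx
  have h1 : (fun i => (x i : K)) ≠ 0 := Function.ne_iff.2 ⟨i, by simpa using hi⟩
  have h2 : (fun i => algebraMap K L (x i)) ≠ 0 := Function.ne_iff.2 ⟨i, by simpa using hi⟩
  have h3 : (fun i => algebraMap (𝓞 K) (𝓞 L) (x i)) ≠ 0 := Function.ne_iff.2 ⟨i, by
    simpa using hi⟩
  have a1 := absNorm_mul_finprod_finitePlace_eq_one hx
  have a2 := absNorm_mul_finprod_finitePlace_eq_one h3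
  have e : Ideal.span (Set.range fun i => algebraMap (𝓞 K) (𝓞 L) (x i)) =
      (Ideal.span (Set.range x)).map (algebraMap (𝓞 K) (𝓞 L)) := by
    rw [Ideal.map_span, ← Set.range_comp]; rfl
  rw [e, Ideal.absNorm_algebraMap, ← IsFractionRing.finrank_eq (𝓞 K) K (𝓞 L) L] at a2
  rw [NumberField.mulHeight_eq h1, NumberField.mulHeight_eq h2, mul_pow]
  congr 1
  · rw [inf_eq fun v => ⨆ i, v (x i : K), inf_eq fun v => ⨆ i, v (algebraMap K L (x i)), ← fib]
    rfl
  · rw [eq_inv_of_mul_eq_one_right a1, inv_pow, ← Nat.cast_pow]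
    exact eq_inv_of_mul_eq_one_right a2

lemma ext_inv {K L ι : Type*} [Field K] [NumberField K] [Field L] [NumberField L] (σ : K →+* L)
    [Finite ι] (x : ι → K) :
    logHeight (fun i => σ (x i)) / Module.finrank ℚ L = logHeight x / Module.finrank ℚ K := by
  let _ := σ.toAlgebra
  have h : logHeight (fun i => σ (x i)) = Module.finrank K L * logHeight x := by
    rcases eq_or_ne x 0 with rfl | hx
    · simp [← Pi.zero_def]
    obtain ⟨b, hb⟩ := IsLocalization.exist_integer_multiples_of_finite (nonZeroDivisors (𝓞 K)) x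
    choose y hy using hb
    have hb : ((b : 𝓞 K) : K) ≠ 0 := by simp
    have e : (fun i => (y i : K)) = ((b : 𝓞 K) : K) • x := funext fun i => hy i
    have hy0 : y ≠ 0 := by
      rintro rfl
      exact smul_ne_zero hb hx (e.symm.trans (funext fun _ => rfl))
    have := ext_int (L := L) y hy0
    have e2 : (fun i => algebraMap K L (y i)) = σ ((b : 𝓞 K) : K) • fun i => σ (x i) :=
      funext fun i => by rw [congrFun e i]; exact map_mul σ _ _
    rw [e, e2, mulHeight_smul_eq_mulHeight _ hb,
      mulHeight_smul_eq_mulHeight _ ((map_ne_zero σ).2 hb)] at this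
    rw [logHeight_eq_log_mulHeight, this, Real.log_pow, logHeight_eq_log_mulHeight]
  have h1 : (Module.finrank K L : ℝ) ≠ 0 := Nat.cast_ne_zero.2 Module.finrank_pos.ne'
  rw [h, ← Module.finrank_mul_finrank ℚ K L, Nat.cast_mul, mul_comm (Module.finrank ℚ K : ℝ),
    mul_div_mul_left _ _ h1]


lemma ext_one {K L : Type*} [Field K] [NumberField K] [Field L] [NumberField L] (σ : K →+* L)
    (x : K) : logHeight₁ (σ x) / Module.finrank ℚ L = logHeight₁ x / Module.finrank ℚ K := by
  have := ext_inv σ ![x, 1]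
  rw [logHeight₁_eq_logHeight, logHeight₁_eq_logHeight, ← this]
  congr 2
  funext i
  fin_cases i <;> simp

lemma ms_prod {α ι : Type*} (m : Multiset α) (s : Finset ι) (f : ι → α → ℝ) :
    (m.map fun a => ∏ i ∈ s, f i a).prod = ∏ i ∈ s, (m.map (f i)).prod := by
  induction m using Multiset.induction_on with
  | empty => simp
  | cons a m ih => simp [ih, Finset.prod_mul_distrib]

lemma gauss_ge {L : Type*} [Field L] {v : AbsoluteValue L ℝ} (hv : IsNonarchimedean v) (a : L)
    (m : Multiset L) : v a * (m.map fun r => max (v r) 1).prod ≤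
      (C a * (m.map (X - C ·)).prod).gaussNorm v 1 := by
  induction m using Multiset.induction_on with
  | empty => simp
  | cons r m ih =>
    rw [Multiset.map_cons, Multiset.map_cons, Multiset.prod_cons, Multiset.prod_cons,
      mul_left_comm, mul_left_comm (C a), gaussNorm_mul hv one_pos]
    refine mul_le_mul (max_le ?_ ?_) ih (mul_nonneg (v.nonneg a) (Multiset.prod_nonneg fun x hx => ?_))
      (gaussNorm_nonneg _ _ zero_le_one)
    · exact le_trans (by simp) ((X - C r).le_gaussNorm v zero_le_one 0)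
    · exact le_trans (by simp) ((X - C r).le_gaussNorm v zero_le_one 1)
    · obtain ⟨y, -, rfl⟩ := Multiset.mem_map.1 hx
      positivity

lemma roots_height {L : Type*} [Field L] [NumberField L] {p : ℤ[X]} (hp : p ≠ 0)
    (hs : (p.map (Int.castRingHom L)).Splits) :
    ((p.map (Int.castRingHom L)).roots.map mulHeight₁).prod ≤
      (p.map (Int.castRingHom ℂ)).mahlerMeasure ^ Module.finrank ℚ L := by
  classical
  set q := p.map (Int.castRingHom L) with hq
  have hinj : Function.Injective (Int.castRingHom L) := Int.cast_injective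
  have ha : q.leadingCoeff ≠ 0 := leadingCoeff_ne_zero.2 ((Polynomial.map_ne_zero_iff hinj).2 hp)
  have hfin : ∀ x : L, (Function.mulSupport fun v : FinitePlace L => max (v x) 1).Finite := by
    intro x
    by_cases hx : x = 0
    · simp [hx]
    · refine (FinitePlace.hasFiniteMulSupport hx).subset fun v hv h => hv ?_
      simp only at h
      simp [h]
  let S : Finset (FinitePlace L) := (FinitePlace.hasFiniteMulSupport ha).toFinset ∪
    q.roots.toFinset.biUnion fun t => (hfin t).toFinset
  have e1 := prod_abs_eq_one ha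
  rw [finprod_eq_prod_of_mulSupport_subset _ (s := S) (fun v hv => Finset.mem_coe.2
    (Finset.mem_union_left _ ((Set.Finite.mem_toFinset _).2 hv))),
    inf_eq fun v => v q.leadingCoeff] at e1
  have e2 : ∀ t ∈ q.roots, mulHeight₁ t =
      (∏ φ : L →+* ℂ, max 1 ‖φ t‖) * ∏ v ∈ S, max (v t) 1 := by
    intro t ht
    rw [NumberField.mulHeight₁_eq, finprod_eq_prod_of_mulSupport_subset _ (s := S)
      (fun v hv => Finset.mem_coe.2 (Finset.mem_union_right _ (Finset.mem_biUnion.2
        ⟨t, Multiset.mem_toFinset.2 ht, (Set.Finite.mem_toFinset _).2 hv⟩))),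
      inf_eq fun v => max (v t) 1]
    simp only [max_comm (1 : ℝ)]
    rfl
  have e3 : ∀ φ : L →+* ℂ, ‖φ q.leadingCoeff‖ * (q.roots.map fun t => max 1 ‖φ t‖).prod =
      (p.map (Int.castRingHom ℂ)).mahlerMeasure := by
    intro φ
    have : p.map (Int.castRingHom ℂ) = q.map φ := by
      rw [hq, Polynomial.map_map]
      congr 1
      exact RingHom.ext_int _ _
    rw [this, mahlerMeasure_eq_leadingCoeff_mul_prod_roots, hs.roots_map, Multiset.map_map,
      leadingCoeff_map_of_injective φ.injective q]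
    rfl
  have e4 : ∀ v : FinitePlace L, v q.leadingCoeff * (q.roots.map fun t => max (v t) 1).prod ≤ 1 := by
    intro v
    have hv : IsNonarchimedean v.1 := FinitePlace.add_le v
    refine (gauss_ge hv _ _).trans ?_
    rw [← hs.eq_prod_roots]
    obtain ⟨i, hi⟩ := q.exists_eq_gaussNorm v.1 1
    rw [hi, one_pow, mul_one, hq, coeff_map]
    exact IsNonarchimedean.apply_intCast_le_one hv
  rw [Multiset.map_congr rfl e2, Multiset.prod_map_mul, ms_prod, ms_prod, ← Embeddings.card L ℂ,
    ← Finset.card_univ, ← Finset.prod_const, ← Finset.prod_congr rfl fun φ _ => e3 φ,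
    Finset.prod_mul_distrib, mul_comm]
  have hpos : ∀ f : L → ℝ, (∀ t, 0 ≤ f t) → 0 ≤ (q.roots.map f).prod := fun f hf =>
    Multiset.prod_nonneg fun x hx => by
      obtain ⟨y, -, rfl⟩ := Multiset.mem_map.1 hx
      exact hf y
  refine mul_le_mul_of_nonneg_right ?_ (Finset.prod_nonneg fun φ _ => hpos _ fun t => by positivity)
  have e5 : (∏ v ∈ S, v q.leadingCoeff) * ∏ v ∈ S, (q.roots.map fun t => max (v t) 1).prod ≤ 1 := by
    rw [← Finset.prod_mul_distrib]
    exact Finset.prod_le_one (fun v _ => mul_nonneg (apply_nonneg _ _) (hpos _ fun t => by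
      positivity)) fun v _ => e4 v
  have e6 : 0 ≤ ∏ φ : L →+* ℂ, ‖φ q.leadingCoeff‖ := Finset.prod_nonneg fun φ _ => norm_nonneg _
  have e7 := mul_le_mul_of_nonneg_left e5 e6
  rw [← mul_assoc, show (∏ φ : L →+* ℂ, ‖φ q.leadingCoeff‖) * ∏ v ∈ S, v q.leadingCoeff = 1
    from e1] at e7
  linarith

lemma mahler_bound {K : Type} [Field K] [NumberField K] (γ : K) {p : ℤ[X]} (hp : Irreducible p)
    (h0 : aeval γ p = 0) : logHeight₁ γ ≤ Module.finrank ℚ K *
      (Real.log (p.map (Int.castRingHom ℂ)).mahlerMeasure / p.natDegree) := by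
  have hdeg : p.natDegree ≠ 0 := by
    intro h
    rw [eq_C_of_natDegree_eq_zero h] at h0
    apply hp.ne_zero
    rw [eq_C_of_natDegree_eq_zero h, show p.coeff 0 = 0 by simpa using h0, C_0]
  have hQ : Irreducible (p.map (Int.castRingHom ℚ)) :=
    (IsPrimitive.Int.irreducible_iff_irreducible_map_cast (hp.isPrimitive hdeg)).1 hp
  let L := IntermediateField.normalClosure ℚ K (AlgebraicClosure K)
  have : NumberField L := {}
  have : Algebra.IsAlgebraic ℚ (AlgebraicClosure K) :=
    Algebra.IsAlgebraic.trans ℚ K (AlgebraicClosure K)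
  have : IsAlgClosure ℚ (AlgebraicClosure K) := ⟨inferInstance, inferInstance⟩
  have : Normal ℚ (AlgebraicClosure K) := IsAlgClosure.normal ℚ _
  have : Normal ℚ L := normalClosure.normal ℚ K (AlgebraicClosure K)
  set δ : L := algebraMap K L γ with hδ
  have hev : ∀ r : L, aeval r (p.map (Int.castRingHom ℚ)) = aeval r p := fun r =>
    aeval_map_algebraMap ℚ r p
  have hδ0 : aeval δ p = 0 := by
    have := aeval_algHom_apply (algebraMap K L).toIntAlgHom γ p
    rw [h0, map_zero] at this
    exact this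
  have hm := minpoly.eq_of_irreducible hQ ((hev δ).trans hδ0)
  have hlc : (p.map (Int.castRingHom ℚ)).leadingCoeff ≠ 0 := leadingCoeff_ne_zero.2 hQ.ne_zero
  have hs : (p.map (Int.castRingHom L)).Splits := by
    have e : p.map (Int.castRingHom L) = (minpoly ℚ δ).map (algebraMap ℚ L) *
        C (algebraMap ℚ L (p.map (Int.castRingHom ℚ)).leadingCoeff) := by
      rw [← hm, ← map_C, ← Polynomial.map_mul, mul_assoc, ← C_mul, inv_mul_cancel₀ hlc, C_1,
        mul_one, Polynomial.map_map]
      congr 1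
      exact RingHom.ext_int _ _
    rw [e]
    exact (Normal.splits inferInstance δ).mul (Splits.C _)
  have hL : (0 : ℝ) < Module.finrank ℚ L := Nat.cast_pos.2 Module.finrank_pos
  have hK : (0 : ℝ) < Module.finrank ℚ K := Nat.cast_pos.2 Module.finrank_pos
  have h1 : ∀ r ∈ (p.map (Int.castRingHom L)).roots, mulHeight₁ r = mulHeight₁ δ := by
    intro r hr
    have h2 : aeval r p = 0 := by
      have := (mem_roots'.1 hr).2
      rwa [IsRoot.def, eval_map] at this
    obtain ⟨σ, hσ⟩ := minpoly.exists_algEquiv_of_root' (Algebra.IsAlgebraic.isAlgebraic δ)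
      (x := r) (by rw [← hm, map_mul, hev, h2, zero_mul])
    have h3 := ext_one (σ : L →+* L) δ
    rw [div_left_inj' hL.ne', show (σ : L →+* L) δ = r from hσ] at h3
    exact Real.log_injOn_pos (mulHeight₁_pos _) (mulHeight₁_pos _) h3
  have h4 := roots_height hp.ne_zero hs
  rw [Multiset.map_congr rfl h1, Multiset.map_const', Multiset.prod_replicate,
    ← hs.natDegree_eq_card_roots, natDegree_map_eq_of_injective Int.cast_injective] at h4
  have h5 := Real.log_le_log (pow_pos (mulHeight₁_pos _) _) h4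
  rw [Real.log_pow, Real.log_pow, ← logHeight₁_eq_log_mulHeight₁] at h5
  have h6 := ext_one (algebraMap K L) γ
  have hd : (0 : ℝ) < p.natDegree := Nat.cast_pos.2 (Nat.pos_of_ne_zero hdeg)
  rw [← div_le_iff₀' hK, ← h6, div_le_div_iff₀ hL hd]
  linarith

end Pool.Agent.H.MP_92cab9_nt
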